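import Pool.Agent.Lib.MP_1f1ec9_gt.State

set_option autoImplicit false

open Filter Topology Set

namespace Pool.Agent.SigmaHom

/-- The ambient compact space. -/
abbrev Y : Type := C × Q

/-- A continuous injection of the Cantor set into the real line. -/
noncomputable def emb (t : C) : ℝ := ((cantorSetHomeomorphNatToBool.symm t : cantorSet) : ℝ)

lemma continuous_emb : Continuous emb :=
  continuous_subtype_val.comp cantorSetHomeomorphNatToBool.symm.continuous

lemma emb_injective : Function.Injective emb := by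
  intro a b h
  exact cantorSetHomeomorphNatToBool.symm.injective (Subtype.ext h)

lemma emb_nonneg (t : C) : 0 ≤ emb t :=
  (cantorSet_subset_unitInterval (cantorSetHomeomorphNatToBool.symm t).2).1

lemma emb_le_one (t : C) : emb t ≤ 1 :=
  (cantorSet_subset_unitInterval (cantorSetHomeomorphNatToBool.symm t).2).2

/-- The index set of the coding functions. -/
abbrev Kx : Type := Idx × ℚ × ℕ

/-- The value `a + emb t / (n + 1)`. -/
noncomputable def ck (k : Kx) (t : C) : ℝ := (k.2.1 : ℝ) + emb t / ((k.2.2 : ℝ) + 1)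

lemma continuous_ck (k : Kx) : Continuous (ck k) :=
  continuous_const.add (continuous_emb.div_const _)

lemma ck_injective (k : Kx) : Function.Injective (ck k) := by
  intro a b h
  unfold ck at h
  have h1 : emb a / ((k.2.2 : ℝ) + 1) = emb b / ((k.2.2 : ℝ) + 1) := add_left_cancel h
  have h2 : ((k.2.2 : ℝ) + 1) ≠ 0 := by positivity
  exact emb_injective ((div_left_inj' h2).1 h1)

lemma ck_dense (i : Idx) (t : C) {u v : ℝ} (h : u < v) :
    ∃ k : Kx, k.1 = i ∧ u < ck k t ∧ ck k t < v := by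
  obtain ⟨a, ha1, ha2⟩ := exists_rat_btwn h
  obtain ⟨n, hn⟩ := exists_nat_one_div_lt (sub_pos.2 ha2)
  refine ⟨(i, a, n), rfl, ?_, ?_⟩
  · show u < (a : ℝ) + emb t / ((n : ℝ) + 1)
    have := emb_nonneg t
    have : 0 ≤ emb t / ((n : ℝ) + 1) := by positivity
    linarith
  · show (a : ℝ) + emb t / ((n : ℝ) + 1) < v
    have : emb t / ((n : ℝ) + 1) ≤ 1 / ((n : ℝ) + 1) :=
      div_le_div_of_nonneg_right (emb_le_one t) (by positivity)
    linarith

/-- The points whose coordinate `k.1` equals `ck k t`. -/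
def Ck (k : Kx) (t : C) : Set Q := {y | (y k.1 : ℝ) = ck k t}

lemma Ck_unique {k : Kx} {t t' : C} {y : Q} (h : y ∈ Ck k t) (h' : y ∈ Ck k t') : t = t' :=
  ck_injective k (h.symm.trans h')

lemma isClosed_Ck (k : Kx) : IsClosed {z : Q × C | z.1 ∈ Ck k z.2} :=
  isClosed_eq (f := fun z : Q × C => (z.1 k.1 : ℝ)) (by fun_prop)
    ((continuous_ck k).comp continuous_snd)

lemma exists_ke : ∃ e : ℕ → Kx, Function.Surjective e := exists_surjective_nat Kx

/-- An enumeration. -/
noncomputable def ke : ℕ → Kx := exists_ke.choose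

lemma ke_surj : Function.Surjective ke := exists_ke.choose_spec

lemma exists_bs : ∃ bs : ℕ → Set Y, (∀ i, IsOpen (bs i)) ∧
    ∀ (p : Y) (O : Set Y), IsOpen O → p ∈ O → ∃ i, p ∈ bs i ∧ bs i ⊆ O := by
  have hne : (TopologicalSpace.countableBasis Y).Nonempty := by
    obtain ⟨v, hv, _⟩ := (TopologicalSpace.isBasis_countableBasis Y).exists_subset_of_mem_open
      (mem_univ ((fun _ => false, fun _ => 0) : Y)) isOpen_univ
    exact ⟨v, hv⟩
  obtain ⟨f, hf⟩ := (TopologicalSpace.countable_countableBasis Y).exists_eq_range hne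
  refine ⟨f, fun i => ?_, fun p O hO hp => ?_⟩
  · exact TopologicalSpace.isOpen_of_mem_countableBasis (hf ▸ mem_range_self i)
  · obtain ⟨v, hv, hpv, hvO⟩ :=
      (TopologicalSpace.isBasis_countableBasis Y).exists_subset_of_mem_open hp hO
    rw [hf] at hv
    obtain ⟨i, rfl⟩ := hv
    exact ⟨i, hpv, hvO⟩

/-- A countable base of `Y`. -/
noncomputable def bs : ℕ → Set Y := exists_bs.choose

lemma isOpen_bs (i : ℕ) : IsOpen (bs i) := exists_bs.choose_spec.1 i

lemma exists_bs_mem {p : Y} {O : Set Y} (hO : IsOpen O) (hp : p ∈ O) :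
    ∃ i, p ∈ bs i ∧ bs i ⊆ O := exists_bs.choose_spec.2 p O hO hp

/-- Codes; the even positions stay free. -/
def code (m i j : ℕ) : ℕ := 2 * Nat.pair m (Nat.pair i j) + 1

/-- The `m`-th relation coded by `t`. -/
def Rel (m : ℕ) (t : C) (p : Y) : Set Y :=
  {q | ∀ i j, t (code m i j) = true → p ∈ bs i → q ∈ closure (bs j)}

lemma isClosed_Rel (m : ℕ) : IsClosed {z : (C × Y) × Y | z.2 ∈ Rel m z.1.1 z.1.2} := by
  have : {z : (C × Y) × Y | z.2 ∈ Rel m z.1.1 z.1.2} =
      ⋂ i, ⋂ j, ({z : (C × Y) × Y | z.1.1 (code m i j) = false} ∪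
        ({z : (C × Y) × Y | z.1.2 ∉ bs i} ∪ {z : (C × Y) × Y | z.2 ∈ closure (bs j)})) := by
    ext z
    simp only [Rel, mem_ofPred_eq, mem_iInter, mem_union]
    refine forall_congr' fun i => forall_congr' fun j => ?_
    cases z.1.1 (code m i j) <;> simp <;> tauto
  rw [this]
  refine isClosed_iInter fun i => isClosed_iInter fun j => ?_
  refine (isClosed_eq (by fun_prop) continuous_const).union (IsClosed.union ?_ ?_)
  · exact (isOpen_bs i).isClosed_compl.preimage
      (f := fun z : (C × Y) × Y => z.1.2) (by fun_prop)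
  · exact isClosed_closure.preimage continuous_snd

/-- Closed relations between `(t, x)` and a point of a compact space `Z` stay closed
after quantification over the relation coded by `t`. -/
lemma closed_exists_Rel (m : ℕ) {Z : Type} [TopologicalSpace Z] {G : C → Q → Z → Y → Prop}
    (hG : IsClosed {z : ((C × Q) × Z) × Y | G z.1.1.1 z.1.1.2 z.1.2 z.2}) :
    IsClosed {z : (C × Q) × Z | ∃ q ∈ Rel m z.1.1 (z.1.1, z.1.2), G z.1.1 z.1.2 z.2 q} := by
  refine closed_proj (G := fun (z : (C × Q) × Z) q => q ∈ Rel m z.1.1 (z.1.1, z.1.2) ∧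
    G z.1.1 z.1.2 z.2 q) ?_
  refine IsClosed.inter ?_ hG
  exact (isClosed_Rel m).preimage
    (f := fun z : ((C × Q) × Z) × Y => ((z.1.1.1, (z.1.1.1, z.1.1.2)), z.2)) (by fun_prop)

lemma MC_exists_Rel (m : ℕ) {G : C → Q → Y → Prop}
    (hG : IsClosed {z : (C × Q) × Y | G z.1.1 z.1.2 z.2}) :
    MC (fun t => {x | ∃ q ∈ Rel m t (t, x), G t x q}) := by
  refine MC.of_closed (G := fun t x => ∃ q ∈ Rel m t (t, x), G t x q) ?_
  refine closed_proj (G := fun (z : C × Q) q => q ∈ Rel m z.1 (z.1, z.2) ∧ G z.1 z.2 q) ?_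
  refine IsClosed.inter ?_ hG
  exact (isClosed_Rel m).preimage
    (f := fun z : (C × Q) × Y => ((z.1.1, (z.1.1, z.1.2)), z.2)) (by fun_prop)

end Pool.Agent.SigmaHom
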