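import Pool.Agent.Lib.MP_1f1ec9_gt.Kuhn2

/-!
Essential subsets of the Hilbert cube.
-/

set_option autoImplicit false

open Filter Topology Set

namespace Pool.Agent.SigmaHom

/-- The index set of the coordinates. -/
abbrev Idx : Type := List ℕ

/-- The Hilbert cube. -/
abbrev Q : Type := Idx → unitInterval

/-- `φ` is negative on the face `x i = 0` and positive on the face `x i = 1`. -/
def Adm (i : Idx) (φ : C(Q, ℝ)) : Prop :=
  (∀ x : Q, (x i : ℝ) = 0 → φ x < 0) ∧ ∀ x : Q, (x i : ℝ) = 1 → 0 < φ x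

/-- `F` is essential for the pairs of faces with index in the cone of `p`. -/
def Ess (p : Idx) (F : Set Q) : Prop :=
  ∀ φ : Idx → C(Q, ℝ), (∀ i, Adm i (φ i)) → ∃ x ∈ F, ∀ i, p <:+ i → φ i x = 0

/-- grid points -/
noncomputable def gpt (p : ℕ) (v : ℕ → ℕ) : Q := fun i =>
  ⟨min ((v (Encodable.encode i) : ℝ) / p) 1,
    le_min (by positivity) zero_le_one, min_le_right _ _⟩

lemma gpt_dist (p : ℕ) (x u : ℕ → ℕ) (h : ∀ i, x i ≤ u i ∧ u i ≤ x i + 1) (i : Idx) :
    dist (gpt p x i) (gpt p u i) ≤ 1 / p := by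
  rw [Subtype.dist_eq, Real.dist_eq]
  have h1 := (h (Encodable.encode i)).1
  have h2 := (h (Encodable.encode i)).2
  have h1' : (x (Encodable.encode i) : ℝ) ≤ u (Encodable.encode i) := by exact_mod_cast h1
  have h2' : (u (Encodable.encode i) : ℝ) ≤ x (Encodable.encode i) + 1 := by exact_mod_cast h2
  have h3 : |min ((x (Encodable.encode i) : ℝ) / p) 1 - min ((u (Encodable.encode i) : ℝ) / p) 1| ≤
      |(x (Encodable.encode i) : ℝ) / p - (u (Encodable.encode i) : ℝ) / p| := by
    have := abs_min_sub_min_le_max ((x (Encodable.encode i) : ℝ) / p) 1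
      ((u (Encodable.encode i) : ℝ) / p) 1
    simpa using this
  refine h3.trans ?_
  rw [← sub_div, abs_div, Nat.abs_cast]
  refine div_le_div_of_nonneg_right ?_ (Nat.cast_nonneg p)
  rw [abs_le]
  constructor <;> linarith

/-- The infinite dimensional Poincare-Miranda theorem. -/
theorem ess_univ : Ess [] Set.univ := by
  classical
  intro φ hφ
  -- labels
  set e : ℕ → Idx := fun k => (Denumerable.eqv Idx).symm k with he
  have hen : ∀ k, Encodable.encode (e k) = k := fun k => (Denumerable.eqv Idx).apply_symm_apply k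
  have hen' : ∀ i : Idx, e (Encodable.encode i) = i := fun i =>
    (Denumerable.eqv Idx).symm_apply_apply i
  set l : ℕ → ℕ → (ℕ → ℕ) → ZMod 2 := fun p k v => if 0 < φ (e k) (gpt p v) then 1 else 0 with hl
  have hk : ∀ n : ℕ, ∃ x : ℕ → ℕ, ∀ k < n, ∃ u v : ℕ → ℕ,
      (∀ i, x i ≤ u i ∧ u i ≤ x i + 1) ∧ (∀ i, x i ≤ v i ∧ v i ≤ x i + 1) ∧
        0 < φ (e k) (gpt (n + 1) u) ∧ φ (e k) (gpt (n + 1) v) ≤ 0 := by
    intro n
    obtain ⟨x, _, hx⟩ := kuhn n (n + 1) (l (n + 1)) (fun i _ y hy => by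
        have h1 : φ (e i) (gpt (n + 1) y) < 0 := by
          refine (hφ (e i)).1 _ ?_
          show min ((y (Encodable.encode (e i)) : ℝ) / ((n + 1 : ℕ) : ℝ)) 1 = 0
          rw [hen, hy]
          simp
        simp only [hl, if_neg (not_lt.2 h1.le)]) (fun i _ y hy => by
        have h1 : 0 < φ (e i) (gpt (n + 1) y) := by
          refine (hφ (e i)).2 _ ?_
          show min ((y (Encodable.encode (e i)) : ℝ) / ((n + 1 : ℕ) : ℝ)) 1 = 1
          rw [hen, hy, div_self (by positivity)]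
          simp
        simp only [hl, if_pos h1])
    refine ⟨x, fun k hkn => ?_⟩
    obtain ⟨u, v, hu, hv, huv⟩ := hx k hkn
    by_cases h1 : 0 < φ (e k) (gpt (n + 1) u)
    · by_cases h2 : 0 < φ (e k) (gpt (n + 1) v)
      · simp only [hl, if_pos h1, if_pos h2] at huv
        exact absurd rfl huv
      · exact ⟨u, v, hu, hv, h1, not_lt.1 h2⟩
    · by_cases h2 : 0 < φ (e k) (gpt (n + 1) v)
      · exact ⟨v, u, hv, hu, h2, not_lt.1 h1⟩
      · simp only [hl, if_neg h1, if_neg h2] at huv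
        exact absurd rfl huv
  choose x hx using hk
  choose! u v hu hv hpos hneg using hx
  -- the limit point
  set 𝒰 : Ultrafilter ℕ := Filter.hyperfilter ℕ with h𝒰
  obtain ⟨X, -, hX⟩ := isCompact_univ (X := Q) |>.ultrafilter_le_nhds
    (𝒰.map fun n => gpt (n + 1) (x n)) (by simp)
  have hX' : Tendsto (fun n => gpt (n + 1) (x n)) (𝒰 : Filter ℕ) (𝓝 X) := hX
  have hat : (𝒰 : Filter ℕ) ≤ atTop := by
    rw [← Nat.cofinite_eq_atTop]
    exact Filter.hyperfilter_le_cofinite
  have hlim : ∀ w : ℕ → ℕ → ℕ, (∀ᶠ n in (𝒰 : Filter ℕ), ∀ i, x n i ≤ w n i ∧ w n i ≤ x n i + 1) →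
      Tendsto (fun n => gpt (n + 1) (w n)) (𝒰 : Filter ℕ) (𝓝 X) := by
    intro w hw
    rw [tendsto_pi_nhds] at hX' ⊢
    intro i
    refine (hX' i).congr_dist ?_
    have h1 : Tendsto (fun n : ℕ => 1 / ((n : ℝ) + 1)) (𝒰 : Filter ℕ) (𝓝 0) :=
      tendsto_one_div_add_atTop_nhds_zero_nat.mono_left hat
    refine squeeze_zero' (Eventually.of_forall fun _ => dist_nonneg) ?_ h1
    filter_upwards [hw] with n hn
    have := gpt_dist (n + 1) (x n) (w n) hn i
    push_cast at this
    exact this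
  refine ⟨X, mem_univ _, fun i _ => ?_⟩
  set k := Encodable.encode i with hkdef
  have hik : e k = i := hen' i
  have hev : ∀ᶠ n in (𝒰 : Filter ℕ), k < n := hat (eventually_gt_atTop k)
  have h1 := hlim (fun n => u n k) (hev.mono fun n hn => hu n k hn)
  have h2 := hlim (fun n => v n k) (hev.mono fun n hn => hv n k hn)
  have h3 : 0 ≤ φ i X := by
    refine ge_of_tendsto (((φ i).continuous.tendsto X).comp h1) ?_
    filter_upwards [hev] with n hn
    have := hpos n k hn
    rw [hik] at this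
    exact this.le
  have h4 : φ i X ≤ 0 := by
    refine le_of_tendsto (((φ i).continuous.tendsto X).comp h2) ?_
    filter_upwards [hev] with n hn
    have := hneg n k hn
    rw [hik] at this
    exact this
  exact le_antisymm h4 h3

end Pool.Agent.SigmaHom
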