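import Pool.Agent.Lib.MP_1f1ec9_gt.Cube

set_option autoImplicit false

open Filter Topology Set

namespace Pool.Agent.SigmaHom

lemma Ess.mono {p : Idx} {F F' : Set Q} (h : Ess p F) (hF : F ⊆ F') : Ess p F' := by
  intro φ hφ
  obtain ⟨x, hx, hx2⟩ := h φ hφ
  exact ⟨x, hF hx, hx2⟩

lemma suffix_of_cons {l : ℕ} {p i : Idx} (h : (l :: p) <:+ i) : p <:+ i :=
  (List.suffix_cons l p).trans h

lemma Ess.cone {p : Idx} {F : Set Q} (h : Ess p F) (l : ℕ) : Ess (l :: p) F := by
  intro φ hφ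
  obtain ⟨x, hx, hx2⟩ := h φ hφ
  exact ⟨x, hx, fun i hi => hx2 i (suffix_of_cons hi)⟩

lemma cons_suffix_unique {l l' : ℕ} {p i : Idx} (h : (l :: p) <:+ i) (h' : (l' :: p) <:+ i) :
    l = l' := by
  have h1 := List.suffix_of_suffix_length_le h h' (by simp)
  have h2 := h1.eq_of_length (by simp)
  simpa using h2

lemma not_cons_suffix_self (l : ℕ) (p : Idx) : ¬ (l :: p) <:+ p := by
  intro h
  have := h.length_le
  simp at this

/-- The function `x i - c`. -/
noncomputable def coordf (i : Idx) (c : ℝ) : C(Q, ℝ) := ⟨fun x => (x i : ℝ) - c, by fun_prop⟩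

lemma adm_coordf (i : Idx) {c : ℝ} (h0 : 0 < c) (h1 : c < 1) : Adm i (coordf i c) := by
  constructor
  · intro x hx
    show (x i : ℝ) - c < 0
    linarith
  · intro x hx
    show 0 < (x i : ℝ) - c
    linarith

lemma Ess.nonempty {p : Idx} {F : Set Q} (h : Ess p F) : F.Nonempty := by
  obtain ⟨x, hx, _⟩ := h (fun i => coordf i (1 / 2)) fun i =>
    adm_coordf i (by norm_num) (by norm_num)
  exact ⟨x, hx⟩

instance (i : Idx) : Nonempty {φ : C(Q, ℝ) // Adm i φ} :=
  ⟨⟨coordf i (1 / 2), adm_coordf i (by norm_num) (by norm_num)⟩⟩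

/-- A dense sequence of admissible functions. -/
noncomputable def cs (i : Idx) (n : ℕ) : C(Q, ℝ) :=
  (TopologicalSpace.denseSeq {φ : C(Q, ℝ) // Adm i φ} n).1

lemma cs_adm (i : Idx) (n : ℕ) : Adm i (cs i n) :=
  (TopologicalSpace.denseSeq {φ : C(Q, ℝ) // Adm i φ} n).2

lemma cs_dense {i : Idx} {φ : C(Q, ℝ)} (hφ : Adm i φ) {ε : ℝ} (hε : 0 < ε) :
    ∃ n, ∀ x, |cs i n x - φ x| < ε := by
  obtain ⟨n, hn⟩ := (TopologicalSpace.denseRange_denseSeq {φ : C(Q, ℝ) // Adm i φ}).exists_dist_lt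
    (⟨φ, hφ⟩ : {φ : C(Q, ℝ) // Adm i φ}) hε
  refine ⟨n, fun x => ?_⟩
  have h1 : dist φ (cs i n) < ε := hn
  have h2 := (ContinuousMap.dist_apply_le_dist (f := φ) (g := cs i n) x).trans_lt h1
  rw [Real.dist_eq, abs_sub_comm] at h2
  exact h2

/-- finite tuples of admissible functions from the dense sequences -/
abbrev Tup : Type := Finset Idx × (Idx →₀ ℕ)

/-- The common zero set of a tuple. -/
def zset (w : Tup) : Set Q := {x | ∀ i ∈ w.1, cs i (w.2 i) x = 0}

lemma isClosed_zset (w : Tup) : IsClosed (zset w) := by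
  have : zset w = ⋂ i ∈ w.1, {x | cs i (w.2 i) x = 0} := by
    ext x
    simp [zset]
  rw [this]
  exact isClosed_biInter fun i _ => isClosed_eq (cs i (w.2 i)).continuous continuous_const

lemma not_ess_iff {p : Idx} {F : Set Q} (hF : IsClosed F) :
    ¬ Ess p F ↔ ∃ w : Tup, (∀ i ∈ w.1, p <:+ i) ∧ F ∩ zset w = ∅ := by
  constructor
  · intro h
    unfold Ess at h
    push Not at h
    obtain ⟨φ, hφ, h⟩ := h
    -- finite subfamily
    have hcl : ∀ i : {i : Idx // p <:+ i}, IsClosed {x : Q | φ i x = 0} := fun i =>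
      isClosed_eq (φ i).continuous continuous_const
    have hemp : F ∩ ⋂ i : {i : Idx // p <:+ i}, {x : Q | φ i x = 0} = ∅ := by
      rw [Set.eq_empty_iff_forall_notMem]
      rintro x ⟨hxF, hx⟩
      obtain ⟨i, hi, hne⟩ := h x hxF
      rw [mem_iInter] at hx
      exact hne (hx ⟨i, hi⟩)
    obtain ⟨u, hu⟩ := hF.isCompact.elim_finite_subfamily_closed _ hcl hemp
    -- lower bound
    classical
    set s : Finset Idx := u.map (Function.Embedding.subtype _) with hs
    have hsp : ∀ i ∈ s, p <:+ i := by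
      intro i hi
      rw [hs, Finset.mem_map] at hi
      obtain ⟨a, _, ha⟩ := hi
      rw [← ha]
      exact a.2
    have hu' : ∀ x ∈ F, ∃ i ∈ s, φ i x ≠ 0 := by
      intro x hx
      by_contra hcon
      push Not at hcon
      have : x ∈ F ∩ ⋂ i ∈ u, {x : Q | φ i x = 0} := by
        refine ⟨hx, ?_⟩
        rw [mem_iInter₂]
        intro i hi
        exact hcon i (Finset.mem_map.2 ⟨i, hi, rfl⟩)
      rw [hu] at this
      exact this
    set g : Q → ℝ := fun x => ∑ i ∈ s, |φ i x| with hg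
    have hgc : Continuous g := continuous_finsetSum _ fun i _ => (φ i).continuous.abs
    have hδ : ∃ δ : ℝ, 0 < δ ∧ ∀ x ∈ F, δ ≤ g x := by
      rcases F.eq_empty_or_nonempty with hFe | hFn
      · exact ⟨1, one_pos, fun x hx => by rw [hFe] at hx; exact absurd hx (notMem_empty x)⟩
      · obtain ⟨x0, hx0, hmin⟩ := hF.isCompact.exists_isMinOn hFn hgc.continuousOn
        refine ⟨g x0, ?_, fun x hx => hmin hx⟩
        obtain ⟨i, hi, hne⟩ := hu' x0 hx0
        exact lt_of_lt_of_le (abs_pos.2 hne)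
          (Finset.single_le_sum (f := fun i => |φ i x0|) (fun _ _ => abs_nonneg _) hi)
    obtain ⟨δ, hδ, hδ2⟩ := hδ
    have hεpos : 0 < δ / ((s.card : ℝ) + 1) := by positivity
    have hn : ∀ i, ∃ n, ∀ x, |cs i n x - φ i x| < δ / ((s.card : ℝ) + 1) := fun i =>
      cs_dense (hφ i) hεpos
    choose n hn using hn
    refine ⟨(s, Finsupp.onFinset s (fun i => if i ∈ s then n i else 0) fun i hi => ?_), hsp, ?_⟩
    · by_contra hcon
      rw [if_neg hcon] at hi
      exact hi rfl
    · rw [Set.eq_empty_iff_forall_notMem]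
      rintro x ⟨hxF, hxz⟩
      have h1 : ∀ i ∈ s, |φ i x| ≤ δ / ((s.card : ℝ) + 1) := by
        intro i hi
        have h2 : cs i (n i) x = 0 := by
          have := hxz i hi
          rwa [Finsupp.onFinset_apply, if_pos hi] at this
        have h3 := (hn i x).le
        rwa [h2, zero_sub, abs_neg] at h3
      have h4 : g x ≤ s.card * (δ / ((s.card : ℝ) + 1)) := by
        rw [← nsmul_eq_mul]
        exact Finset.sum_le_card_nsmul _ _ _ h1
      have h5 := hδ2 x hxF
      have h6 : (s.card : ℝ) * (δ / ((s.card : ℝ) + 1)) < δ := by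
        rw [mul_div_assoc', div_lt_iff₀ (by positivity)]
        linarith
      linarith
  · rintro ⟨w, hw, hemp⟩ h
    obtain ⟨x, hx, hx2⟩ := h (fun i => cs i (w.2 i)) fun i => cs_adm _ _
    have : x ∈ F ∩ zset w := ⟨hx, fun i hi => hx2 i (hw i hi)⟩
    rw [hemp] at this
    exact this

lemma ess_iInter {p : Idx} {K : ℕ → Set Q} (hK : ∀ n, IsClosed (K n)) (hanti : Antitone K)
    (h : ∀ n, Ess p (K n)) : Ess p (⋂ n, K n) := by
  intro φ hφ
  have h1 : (⋂ n, K n ∩ {x : Q | ∀ i, p <:+ i → φ i x = 0}).Nonempty := by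
    refine IsCompact.nonempty_iInter_of_sequence_nonempty_isCompact_isClosed _ ?_ ?_ ?_ ?_
    · intro n
      exact inter_subset_inter_left _ (hanti (Nat.le_succ n))
    · intro n
      obtain ⟨x, hx, hx2⟩ := h n φ hφ
      exact ⟨x, hx, hx2⟩
    · have : IsClosed (K 0 ∩ {x : Q | ∀ i, p <:+ i → φ i x = 0}) := by
        refine (hK 0).inter ?_
        simp only [ofPred_forall]
        exact isClosed_iInter fun i => isClosed_iInter fun _ =>
          isClosed_eq (φ i).continuous continuous_const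
      exact this.isCompact
    · intro n
      refine (hK n).inter ?_
      simp only [ofPred_forall]
      exact isClosed_iInter fun i => isClosed_iInter fun _ =>
        isClosed_eq (φ i).continuous continuous_const
  obtain ⟨x, hx⟩ := h1
  rw [mem_iInter] at hx
  exact ⟨x, mem_iInter.2 fun n => (hx n).1, (hx 0).2⟩

/-- A disjoint union of two closed sets is essential only if one of them is. -/
lemma Ess.split {p : Idx} {F0 F1 : Set Q} (h0 : IsClosed F0) (h1 : IsClosed F1)
    (hd : Disjoint F0 F1) (h : Ess p (F0 ∪ F1)) : Ess p F0 ∨ Ess p F1 := by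
  by_contra hcon
  rw [not_or] at hcon
  obtain ⟨hn0, hn1⟩ := hcon
  unfold Ess at hn0 hn1
  push Not at hn0 hn1
  obtain ⟨φ, hφ, hn0⟩ := hn0
  obtain ⟨ψ, hψ, hn1⟩ := hn1
  obtain ⟨f, hf0, hf1, hf⟩ := exists_continuous_zero_one_of_isClosed h0 h1 hd
  set χ : Idx → C(Q, ℝ) := fun i => (1 - f) * φ i + f * ψ i with hχ
  have hχx : ∀ i x, χ i x = (1 - f x) * φ i x + f x * ψ i x := fun i x => rfl
  have hχa : ∀ i, Adm i (χ i) := by
    intro i
    constructor
    · intro x hx
      rw [hχx]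
      have h2 := (hφ i).1 x hx
      have h3 := (hψ i).1 x hx
      obtain ⟨h4, h5⟩ := hf x
      rcases eq_or_lt_of_le h4 with h6 | h6
      · rw [← h6]; simpa using h2
      · nlinarith
    · intro x hx
      rw [hχx]
      have h2 := (hφ i).2 x hx
      have h3 := (hψ i).2 x hx
      obtain ⟨h4, h5⟩ := hf x
      rcases eq_or_lt_of_le h4 with h6 | h6
      · rw [← h6]; simpa using h2
      · nlinarith
  obtain ⟨x, hx, hx2⟩ := h χ hχa
  rcases hx with hx | hx
  · obtain ⟨i, hi, hne⟩ := hn0 x hx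
    apply hne
    have h2 := hx2 i hi
    rw [hχx, hf0 hx] at h2
    simpa using h2
  · obtain ⟨i, hi, hne⟩ := hn1 x hx
    apply hne
    have h2 := hx2 i hi
    rw [hχx, hf1 hx] at h2
    simpa using h2

/-- The avoiding half of the basic dichotomy. -/
lemma Ess.avoid {p : Idx} {K : Set Q} (h : Ess p K) (w : ℕ → Tup)
    (hw : ∀ l, ∀ i ∈ (w l).1, ((l + 1) :: p) <:+ i) : Ess (0 :: p) (K ∩ ⋂ l, zset (w l)) := by
  classical
  intro φ hφ
  set ψ : Idx → C(Q, ℝ) := fun i =>
    if hi : ∃ l, i ∈ (w l).1 then cs i ((w hi.choose).2 i) else φ i with hψ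
  have hψa : ∀ i, Adm i (ψ i) := by
    intro i
    simp only [hψ]
    split_ifs
    · exact cs_adm _ _
    · exact hφ i
  obtain ⟨x, hx, hx2⟩ := h ψ hψa
  refine ⟨x, ⟨hx, mem_iInter.2 fun l i hi => ?_⟩, fun i hi => ?_⟩
  · have hex : ∃ l, i ∈ (w l).1 := ⟨l, hi⟩
    have h1 := hx2 i (suffix_of_cons (hw l i hi))
    simp only [hψ, dif_pos hex] at h1
    have h2 : hex.choose = l := by
      have h3 := cons_suffix_unique (hw _ i hex.choose_spec) (hw l i hi)
      omega
    rwa [h2] at h1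
  · have h1 := hx2 i (suffix_of_cons hi)
    have hex : ¬ ∃ l, i ∈ (w l).1 := by
      rintro ⟨l, hl⟩
      have h3 := cons_suffix_unique (hw l i hl) hi
      omega
    simpa only [hψ, dif_neg hex] using h1

lemma Ess.cut {p : Idx} {K : Set Q} (h : Ess p K) {c : ℝ} (h0 : 0 < c) (h1 : c < 1) :
    Ess (0 :: p) (K ∩ {x | (x p : ℝ) = c}) := by
  classical
  intro φ hφ
  set ψ : Idx → C(Q, ℝ) := fun i => if i = p then coordf i c else φ i with hψ
  have hψa : ∀ i, Adm i (ψ i) := by
    intro i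
    simp only [hψ]
    split_ifs
    · exact adm_coordf i h0 h1
    · exact hφ i
  obtain ⟨x, hx, hx2⟩ := h ψ hψa
  refine ⟨x, ⟨hx, ?_⟩, fun i hi => ?_⟩
  · have h2 := hx2 p (List.suffix_refl p)
    simp only [hψ, if_true] at h2
    have h3 : (x p : ℝ) - c = 0 := h2
    show (x p : ℝ) = c
    linarith
  · have h2 := hx2 i (suffix_of_cons hi)
    have hne : i ≠ p := by
      rintro rfl
      exact not_cons_suffix_self 0 i hi
    simpa only [hψ, if_neg hne] using h2

end Pool.Agent.SigmaHom
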