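import Pool.Agent.Lib.MP_1f1ec9_gt.Req

set_option autoImplicit false

open Filter Topology Set

namespace Pool.Agent.SigmaHom

lemma exists_seq {R : Type} [Countable R] [Nonempty R] (P : R → St → Prop)
    (hd : ∀ r S, ∃ S' : St, S'.Le S ∧ P r S') :
    ∃ S : ℕ → St, (∀ n, (S (n + 1)).Le (S n)) ∧ ∀ r, ∃ n, P r (S n) := by
  obtain ⟨e, he⟩ := exists_surjective_nat R
  choose g hg1 hg2 using hd
  let S : ℕ → St := fun n => Nat.rec St.init (fun n s => g (e n) s) n
  refine ⟨S, fun n => hg1 (e n) (S n), fun r => ?_⟩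
  obtain ⟨n, rfl⟩ := he r
  exact ⟨n + 1, hg2 (e n) (S n)⟩

/-- The requirements. -/
def Reqs : (ℕ × ℕ) ⊕ (ℕ × ℕ × Kx × (ℕ × Bool)) ⊕ (Idx × ℕ) → St → Prop
  | Sum.inl a => fun S => ∃ σ : C → C, PA a.1 a.2 S σ
  | Sum.inr (Sum.inl a) => PC a.1 a.2.1 a.2.2.1 a.2.2.2
  | Sum.inr (Sum.inr a) => PD a.1 a.2

lemma exists_main : ∃ S : ℕ → St, (∀ n, (S (n + 1)).Le (S n)) ∧
    (∀ m m', ∃ n σ, PA m m' (S n) σ) ∧ (∀ m m' k r, ∃ n, PC m m' k r (S n)) ∧
    ∀ i r, ∃ n, PD i r (S n) := by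
  obtain ⟨S, h1, h2⟩ := exists_seq Reqs (by
    rintro (a | a | a) S
    · obtain ⟨S', hS', σ, -, h⟩ := PA.dense a.1 a.2 S
      exact ⟨S', hS', σ, h⟩
    · exact PC.dense _ _ _ _ S
    · exact PD.dense _ _ S)
  exact ⟨S, h1, fun m m' => h2 (Sum.inl (m, m')), fun m m' k r => h2 (Sum.inr (Sum.inl
    (m, m', k, r))), fun i r => h2 (Sum.inr (Sum.inr (i, r)))⟩

lemma Rel_eq {D : Type} [TopologicalSpace D] {ι : D → Y} (hι : IsInducing ι) {g : D → D}
    (hg : Continuous g) {m : ℕ} {t : C}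
    (ht : ∀ i j, t (code m i j) = true ↔ ∀ z, ι z ∈ bs i → ι (g z) ∈ bs j) (z : D) :
    Rel m t (ι z) = {ι (g z)} := by
  apply Set.eq_singleton_iff_unique_mem.2
  refine ⟨fun i j hij hz => subset_closure ((ht i j).1 hij z hz), fun q hq => ?_⟩
  by_contra hne
  obtain ⟨u, hu1, hu2, v, hv1, hv2, huv⟩ := exists_open_nhds_disjoint_closure hne
  obtain ⟨j, hj1, hj2⟩ := exists_bs_mem hv2 hv1
  have h1 : IsOpen {z | ι (g z) ∈ bs j} := (isOpen_bs j).preimage (hι.continuous.comp hg)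
  obtain ⟨O, hO, hO2⟩ := hι.isOpen_iff.1 h1
  have h2 : ι z ∈ O := by
    have : z ∈ ι ⁻¹' O := by rw [hO2]; exact hj1
    exact this
  obtain ⟨i, hi1, hi2⟩ := exists_bs_mem hO h2
  have h3 : t (code m i j) = true := (ht i j).2 fun z' hz' => by
    have : z' ∈ ι ⁻¹' O := hi2 hz'
    rw [hO2] at this
    exact this
  have h4 := hq i j h3 hi1
  exact Set.disjoint_left.1 huv (subset_closure hu1) (closure_mono hj2 h4)

/-- The code with free bits `u` and table `B`. -/
def mk (u : ℕ → Bool) (B : ℕ → ℕ → ℕ → Bool) : C := fun k =>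
  if k % 2 = 0 then u (k / 2) else
    B (Nat.unpair (k / 2)).1 (Nat.unpair (Nat.unpair (k / 2)).2).1
      (Nat.unpair (Nat.unpair (k / 2)).2).2

lemma mk_code (u : ℕ → Bool) (B : ℕ → ℕ → ℕ → Bool) (m i j : ℕ) :
    mk u B (code m i j) = B m i j := by
  unfold mk code
  have h1 : (2 * Nat.pair m (Nat.pair i j) + 1) % 2 ≠ 0 := by omega
  have h2 : (2 * Nat.pair m (Nat.pair i j) + 1) / 2 = Nat.pair m (Nat.pair i j) := by omega
  rw [if_neg h1, h2]
  simp

lemma mk_inj (B : ℕ → ℕ → ℕ → Bool) : Function.Injective fun u => mk u B := by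
  intro u u' h
  funext k
  have h1 := congrFun h (2 * k)
  have h2 : (2 * k) % 2 = 0 := by omega
  have h3 : (2 * k) / 2 = k := by omega
  simpa only [mk, h2, if_true, h3] using h1

instance : Uncountable C := by
  have h2 : Cardinal.mk C = Cardinal.continuum := by simp
  rw [← not_countable_iff]
  intro h
  have h1 : Cardinal.mk C ≤ Cardinal.aleph0 := Cardinal.mk_le_aleph0_iff.2 h
  rw [h2] at h1
  exact absurd Cardinal.aleph0_lt_continuum (not_lt.2 h1)

/-- Homogeneous spaces. -/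
def Homog (X : Type) [TopologicalSpace X] : Prop := ∀ x y : X, ∃ h : X ≃ₜ X, h x = y

/-- The countable family of homeomorphisms. -/
noncomputable def fam {X : Set Y} (H : ℕ → Set X) (a : ℕ) :
    (H a.unpair.1 : Set X) ≃ₜ (H a.unpair.1 : Set X) :=
  open Classical in
  if h : ∃ g : (H a.unpair.1 : Set X) ≃ₜ (H a.unpair.1 : Set X), ∀ z : (H a.unpair.1 : Set X),
      ((z : X) : Y) ∈ bs a.unpair.2.unpair.1 → ((g z : X) : Y) ∈ bs a.unpair.2.unpair.2 then
    h.choose else Homeomorph.refl _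

lemma fam_spec {X : Set Y} (H : ℕ → Set X) (n i j : ℕ)
    (h : ∃ g : (H n : Set X) ≃ₜ (H n : Set X), ∀ z : (H n : Set X),
      ((z : X) : Y) ∈ bs i → ((g z : X) : Y) ∈ bs j) (w : X) (hw : w ∈ H n)
    (hi : (w : Y) ∈ bs i) :
    ∃ a, ∃ hw : w ∈ H a.unpair.1, ((fam H a ⟨w, hw⟩ : X) : Y) ∈ bs j := by
  refine ⟨Nat.pair n (Nat.pair i j), ?_⟩
  have e1 : (Nat.pair n (Nat.pair i j)).unpair.1 = n := by simp
  have e2 : (Nat.pair n (Nat.pair i j)).unpair.2.unpair.1 = i := by simp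
  have e3 : (Nat.pair n (Nat.pair i j)).unpair.2.unpair.2 = j := by simp
  generalize Nat.pair n (Nat.pair i j) = a at e1 e2 e3
  subst e1 e2 e3
  refine ⟨hw, ?_⟩
  unfold fam
  rw [dif_pos h]
  exact h.choose_spec ⟨w, hw⟩ hi

theorem main : ∃ X : Set Y, MeasurableSet X ∧ (∀ t, ∃! x, (t, x) ∈ X) ∧
    ¬ ∃ H : ℕ → Set X, (∀ n, Homog (H n)) ∧ ⋃ n, H n = univ := by
  classical
  obtain ⟨S, hS, hA, hC, hD⟩ := exists_main
  have hanti : ∀ t, Antitone fun n => (S n).K t := fun t =>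
    antitone_nat_of_succ_le fun n => hS n t
  have hne : ∀ t, ∃ x, ∀ n, x ∈ (S n).K t := by
    intro t
    have h1 := ess_iInter (p := []) (K := fun n => (S n).K t)
    have h2 : (⋂ n, (S n).K t).Nonempty := by
      refine IsCompact.nonempty_iInter_of_sequence_nonempty_isCompact_isClosed _ ?_ ?_ ?_ ?_
      · exact fun n => hS n t
      · exact fun n => ((S n).hess t).nonempty
      · exact ((S 0).hK.closed t).isCompact
      · exact fun n => (S n).hK.closed t
    obtain ⟨x, hx⟩ := h2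
    exact ⟨x, mem_iInter.1 hx⟩
  have huniq : ∀ t x y, (∀ n, x ∈ (S n).K t) → (∀ n, y ∈ (S n).K t) → x = y := by
    intro t x y hx hy
    funext i
    apply Subtype.ext
    by_contra hcon
    have h1 : 0 < |(x i : ℝ) - y i| := abs_pos.2 (sub_ne_zero.2 hcon)
    obtain ⟨r, hr⟩ := exists_nat_one_div_lt h1
    obtain ⟨n, hn⟩ := hD i r
    exact absurd (hn t x (hx n) y (hy n)) (not_le.2 hr)
  choose f hf using hne
  set X : Set Y := {z | ∀ n, z.2 ∈ (S n).K z.1} with hX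
  refine ⟨X, ?_, fun t => ⟨f t, hf t, fun y hy => huniq t y (f t) hy (hf t)⟩, ?_⟩
  · have : X = ⋂ n, {z : C × Q | z.2 ∈ (S n).K z.1} := by
      ext z
      simp [hX]
    rw [this]
    exact MeasurableSet.iInter fun n => (S n).hK.measurableSet_graph
  rintro ⟨H, hH, hHu⟩
  set P : C → X := fun t => ⟨(t, f t), hf t⟩ with hP
  have hPinj : Function.Injective P := by
    intro a b h
    exact congrArg (fun z : X => (z : Y).1) h
  have hmem : ∀ t, ∃ n, P t ∈ H n := by
    intro t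
    have : P t ∈ ⋃ n, H n := by rw [hHu]; exact mem_univ _
    exact mem_iUnion.1 this
  choose N hN using hmem
  set E : Set C := {t | (H (N t)).Subsingleton} with hE
  have hEc : E.Countable := by
    refine Set.countable_iff_exists_injOn.2 ⟨N, fun a ha b _ hab => ?_⟩
    have h1 : P b ∈ H (N a) := by rw [hab]; exact hN b
    exact hPinj (ha (hN a) h1)
  -- the table
  set B : ℕ → ℕ → ℕ → Bool := fun m i j =>
    if m % 2 = 0 then decide (∀ z : (H (m / 2).unpair.1 : Set X),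
      ((z : X) : Y) ∈ bs i → ((fam H (m / 2) z : X) : Y) ∈ bs j)
    else decide (∀ z : (H (m / 2).unpair.1 : Set X),
      ((z : X) : Y) ∈ bs i → (((fam H (m / 2)).symm z : X) : Y) ∈ bs j) with hB
  have hex : ∃ u, mk u B ∉ E := by
    by_contra hcon
    push Not at hcon
    have h1 : ((fun u => mk u B) ⁻¹' E).Countable := hEc.preimage_of_injOn (mk_inj B).injOn
    have h2 : ((fun u => mk u B) ⁻¹' E) = univ := by
      ext u
      simp [hcon u]
    rw [h2] at h1
    exact Set.not_countable_univ h1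
  obtain ⟨u, hu⟩ := hex
  set t : C := mk u B with ht
  -- a nontrivial member of the family
  have hnt : ∃ z ∈ H (N t), z ≠ P t := by
    by_contra hcon
    push Not at hcon
    exact hu fun a ha b hb => (hcon a ha).trans (hcon b hb).symm
  obtain ⟨z, hz, hzne⟩ := hnt
  obtain ⟨h, hh⟩ := hH (N t) ⟨P t, hN t⟩ ⟨z, hz⟩
  have hzne' : ((P t : X) : Y) ≠ (z : Y) := fun h => hzne (Subtype.ext h).symm
  obtain ⟨O1, O2, hO1, hO2, hPO, hzO, hdis⟩ := t2_separation hzne'
  obtain ⟨j, hj1, hj2⟩ := exists_bs_mem hO2 hzO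
  have hιn : ∀ n, IsInducing fun z : (H n : Set X) => ((z : X) : Y) := fun n =>
    IsInducing.subtypeVal.comp IsInducing.subtypeVal
  have hop : IsOpen {w : (H (N t) : Set X) | ((h w : X) : Y) ∈ bs j} :=
    (isOpen_bs j).preimage ((hιn _).continuous.comp h.continuous)
  obtain ⟨O, hO, hO'⟩ := (hιn _).isOpen_iff.1 hop
  have hPtO : ((P t : X) : Y) ∈ O := by
    have : (⟨P t, hN t⟩ : (H (N t) : Set X)) ∈ (fun z : (H (N t) : Set X) => ((z : X) : Y)) ⁻¹' O := by
      rw [hO']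
      show ((h ⟨P t, hN t⟩ : X) : Y) ∈ bs j
      rw [hh]
      exact hj1
    exact this
  obtain ⟨i, hi1, hi2⟩ := exists_bs_mem (hO.inter hO1) ⟨hPtO, hPO⟩
  obtain ⟨a, haw, hag⟩ := fam_spec H (N t) i j ⟨h, fun w hw => by
    have : w ∈ (fun z : (H (N t) : Set X) => ((z : X) : Y)) ⁻¹' O := (hi2 hw).1
    rw [hO'] at this
    exact this⟩ (P t) (hN t) hi1
  -- the two coded relations
  have hR1 := Rel_eq (hιn a.unpair.1) (fam H a).continuous (m := 2 * a) (t := t) (by
    intro i j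
    rw [ht, mk_code, hB]
    have e1 : (2 * a) % 2 = 0 := by omega
    have e2 : (2 * a) / 2 = a := by omega
    simp only [e1, if_true, decide_eq_true_eq]
    rw [e2]) ⟨P t, haw⟩
  have hR2 := Rel_eq (hιn a.unpair.1) (fam H a).symm.continuous (m := 2 * a + 1) (t := t) (by
    intro i j
    rw [ht, mk_code, hB]
    have e1 : ¬ (2 * a + 1) % 2 = 0 := by omega
    have e2 : (2 * a + 1) / 2 = a := by omega
    simp only [e1, if_false, decide_eq_true_eq]
    rw [e2]) (fam H a ⟨P t, haw⟩)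
  rw [Homeomorph.symm_apply_apply] at hR2
  set q : X := (fam H a ⟨P t, haw⟩ : X) with hq
  have hqne : (q : Y) ≠ (t, f t) := by
    intro hcon
    have h1 : (q : Y) ∈ O2 := hj2 hag
    rw [hcon] at h1
    exact Set.disjoint_left.1 hdis hPO h1
  have hst : (q : Y).1 ≠ t := by
    intro hcon
    apply hqne
    have h1 : (q : Y).2 = f t := by
      refine huniq t _ _ (fun n => ?_) (hf t)
      have := q.2 n
      rwa [hcon] at this
    exact Prod.ext hcon h1
  have hR1' : Rel (2 * a) t (t, f t) = {(q : Y)} := hR1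
  have hR2' : Rel (2 * a + 1) t (q : Y) = {(t, f t)} := hR2
  obtain ⟨n, σ, hAn⟩ := hA (2 * a) (2 * a + 1)
  rcases hAn t with h1 | ⟨k, h1⟩
  · exact h1 (f t) (hf t n) ⟨q, hR1', hR2'⟩
  · obtain ⟨y, hy1, hy2⟩ := h1 (f t) (hf t n)
    rw [hR1'] at hy1
    have hqy : (q : Y) = (σ t, y) := singleton_injective hy1
    have hne : ∃ r, (q : Y).1 r ≠ t r := by
      by_contra hcon
      push Not at hcon
      exact hst (funext hcon)
    obtain ⟨r, hr⟩ := hne
    obtain ⟨n', hCn⟩ := hC (2 * a) (2 * a + 1) k (r, t r)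
    refine hCn t rfl (q : Y).1 hr (f t) (hf t n') (q : Y).2 (q.2 n') ?_ hR1' hR2'
    rw [hqy]
    exact hy2

end Pool.Agent.SigmaHom
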