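import Mathlib

/-!
A combinatorial form of the Poincare-Miranda theorem (Kuhn), proved with cup products of
`ZMod 2` cochains on a cubical grid.
-/

set_option autoImplicit false

namespace Pool.Agent.SigmaHom

/-- One step in direction `i`. -/
def stp (x : ℕ → ℕ) (i : ℕ) : ℕ → ℕ := Function.update x i (x i + 1)

lemma stp_comm (x : ℕ → ℕ) (i j : ℕ) : stp (stp x i) j = stp (stp x j) i := by
  funext k
  unfold stp
  by_cases hij : i = j
  · subst hij; rfl
  · by_cases hk : k = i
    · subst hk
      simp [hij]
    · by_cases hk' : k = j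
      · subst hk'
        simp [Ne.symm hij]
      · simp [hk, hk']

/-- The cup product of the coboundaries of `l k, l (k+1), ...` on the cube `(x, D)`. -/
def GG (l : ℕ → (ℕ → ℕ) → ZMod 2) : ℕ → ℕ → (ℕ → ℕ) → Finset ℕ → ZMod 2
  | _, 0, _, _ => 1
  | k, m + 1, x, D =>
    ∑ i ∈ D, (l k (stp x i) + l k x) * GG l (k + 1) m (stp x i) (D.erase i)

lemma z2_add_self (a : ZMod 2) : a + a = 0 := CharTwo.add_self_eq_zero a

lemma sum_symm_zero (D : Finset ℕ) (f : ℕ → ℕ → ZMod 2) (hf : ∀ i j, f i j = f j i) :
    ∑ i ∈ D, ∑ j ∈ D.erase i, f i j = 0 := by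
  have h1 : ∑ i ∈ D, ∑ j ∈ D.erase i, f i j =
      ∑ q ∈ (D ×ˢ D).filter (fun q => q.1 ≠ q.2), f q.1 q.2 := by
    rw [Finset.sum_filter, Finset.sum_product]
    refine Finset.sum_congr rfl fun i _ => ?_
    rw [← Finset.sum_filter]
    refine Finset.sum_congr ?_ fun _ _ => rfl
    ext j
    simp only [Finset.mem_erase, Finset.mem_filter, ne_eq]
    tauto
  rw [h1]
  refine Finset.sum_involution (fun q _ => (q.2, q.1)) ?_ ?_ ?_ ?_
  · intro q _
    show f q.1 q.2 + f q.2 q.1 = 0
    rw [hf q.2 q.1]
    exact z2_add_self _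
  · intro q hq _ h
    rw [Finset.mem_filter] at hq
    have := congrArg Prod.fst h
    exact hq.2 this.symm
  · intro q hq
    rw [Finset.mem_filter, Finset.mem_product] at hq ⊢
    exact ⟨⟨hq.1.2, hq.1.1⟩, hq.2.symm⟩
  · intro q _
    rfl

/-- the coboundary of the cup product vanishes -/
def Closed (l : ℕ → (ℕ → ℕ) → ZMod 2) (m : ℕ) : Prop :=
  ∀ k x (D : Finset ℕ), D.card = m + 1 →
    ∑ i ∈ D, (GG l k m (stp x i) (D.erase i) + GG l k m x (D.erase i)) = 0

lemma GG_formula (l : ℕ → (ℕ → ℕ) → ZMod 2) (m : ℕ) (h : Closed l m) (k : ℕ) (x : ℕ → ℕ)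
    (D : Finset ℕ) (hD : D.card = m + 1) :
    GG l k (m + 1) x D = ∑ i ∈ D, (l k (stp x i) * GG l (k + 1) m (stp x i) (D.erase i) +
      l k x * GG l (k + 1) m x (D.erase i)) := by
  have h1 := h (k + 1) x D hD
  have h2 : GG l k (m + 1) x D = ∑ i ∈ D, (l k (stp x i) + l k x) *
      GG l (k + 1) m (stp x i) (D.erase i) := rfl
  have h3 : ∑ i ∈ D, (l k (stp x i) * GG l (k + 1) m (stp x i) (D.erase i) +
      l k x * GG l (k + 1) m x (D.erase i)) =
      ∑ i ∈ D, (l k (stp x i) + l k x) * GG l (k + 1) m (stp x i) (D.erase i) +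
      l k x * ∑ i ∈ D, (GG l (k + 1) m (stp x i) (D.erase i) +
        GG l (k + 1) m x (D.erase i)) := by
    rw [Finset.mul_sum, ← Finset.sum_add_distrib]
    refine Finset.sum_congr rfl fun i _ => ?_
    have h4 := z2_add_self (l k x * GG l (k + 1) m (stp x i) (D.erase i))
    linear_combination -h4
  rw [h3, h1, mul_zero, add_zero, h2]

lemma closed_all (l : ℕ → (ℕ → ℕ) → ZMod 2) (m : ℕ) : Closed l m := by
  induction m with
  | zero =>
    intro k x D _
    refine Finset.sum_eq_zero fun i _ => ?_
    exact z2_add_self _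
  | succ m ih =>
    intro k x D hD
    have h1 : ∀ i ∈ D, GG l k (m + 1) (stp x i) (D.erase i) + GG l k (m + 1) x (D.erase i) =
        ∑ j ∈ D.erase i,
          (l k (stp (stp x i) j) * GG l (k + 1) m (stp (stp x i) j) ((D.erase i).erase j) +
          l k (stp x i) * GG l (k + 1) m (stp x i) ((D.erase i).erase j) +
          (l k (stp x j) * GG l (k + 1) m (stp x j) ((D.erase i).erase j) +
          l k x * GG l (k + 1) m x ((D.erase i).erase j))) := by
      intro i hi
      have hc : (D.erase i).card = m + 1 := by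
        rw [Finset.card_erase_of_mem hi, hD]
        rfl
      rw [GG_formula l m ih k (stp x i) _ hc, GG_formula l m ih k x _ hc,
        ← Finset.sum_add_distrib]
    rw [Finset.sum_congr rfl h1]
    refine sum_symm_zero D (fun i j =>
          (l k (stp (stp x i) j) * GG l (k + 1) m (stp (stp x i) j) ((D.erase i).erase j) +
          l k (stp x i) * GG l (k + 1) m (stp x i) ((D.erase i).erase j) +
          (l k (stp x j) * GG l (k + 1) m (stp x j) ((D.erase i).erase j) +
          l k x * GG l (k + 1) m x ((D.erase i).erase j)))) fun i j => ?_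
    rw [stp_comm x i j, Finset.erase_right_comm]
    ring

/-- Iterated sum over a box. -/
def BoxSum (p : ℕ) : List ℕ → ((ℕ → ℕ) → ZMod 2) → (ℕ → ℕ) → ZMod 2
  | [], f, z => f z
  | i :: L, f, z => ∑ a ∈ Finset.range p, BoxSum p L f (Function.update z i a)

lemma BoxSum_add (p : ℕ) (L : List ℕ) (f g : (ℕ → ℕ) → ZMod 2) (z : ℕ → ℕ) :
    BoxSum p L (fun x => f x + g x) z = BoxSum p L f z + BoxSum p L g z := by
  induction L generalizing z with
  | nil => rfl
  | cons i L ih =>
    simp only [BoxSum, ih, Finset.sum_add_distrib]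

lemma BoxSum_sum {α : Type} (p : ℕ) (L : List ℕ) (s : Finset α) (f : α → (ℕ → ℕ) → ZMod 2)
    (z : ℕ → ℕ) : BoxSum p L (fun x => ∑ a ∈ s, f a x) z = ∑ a ∈ s, BoxSum p L (f a) z := by
  induction L generalizing z with
  | nil => rfl
  | cons i L ih =>
    simp only [BoxSum, ih]
    rw [Finset.sum_comm]

lemma BoxSum_update (p : ℕ) (L : List ℕ) (f : (ℕ → ℕ) → ZMod 2) (z : ℕ → ℕ) (i a : ℕ)
    (hi : i ∉ L) :
    BoxSum p L f (Function.update z i a) = BoxSum p L (fun x => f (Function.update x i a)) z := by
  induction L generalizing z with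
  | nil => rfl
  | cons j L ih =>
    simp only [List.mem_cons, not_or] at hi
    simp only [BoxSum]
    refine Finset.sum_congr rfl fun b _ => ?_
    rw [Function.update_comm hi.1, ih _ hi.2]

/-- values of `BoxSum` depend only on the values of the function on the box -/
lemma BoxSum_congr (p : ℕ) (L : List ℕ) (hL : L.Nodup) (f g : (ℕ → ℕ) → ZMod 2) (z : ℕ → ℕ)
    (h : ∀ x : ℕ → ℕ, (∀ i ∈ L, x i < p) → (∀ i, i ∉ L → x i = z i) → f x = g x) :
    BoxSum p L f z = BoxSum p L g z := by
  induction L generalizing z with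
  | nil => exact h z (by simp) (by simp)
  | cons i L ih =>
    simp only [BoxSum]
    rw [List.nodup_cons] at hL
    refine Finset.sum_congr rfl fun a ha => ih hL.2 _ fun x hx1 hx2 => h x ?_ ?_
    · intro j hj
      rcases List.mem_cons.1 hj with rfl | hj
      · rw [hx2 j hL.1, Function.update_self]
        exact Finset.mem_range.1 ha
      · exact hx1 j hj
    · intro j hj
      simp only [List.mem_cons, not_or] at hj
      rw [hx2 j hj.2, Function.update_of_ne hj.1]

lemma telescope (p : ℕ) (f : ℕ → ZMod 2) :
    ∑ a ∈ Finset.range p, (f (a + 1) + f a) = f p + f 0 := by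
  induction p with
  | zero => simp [z2_add_self]
  | succ p ih =>
    rw [Finset.sum_range_succ, ih]
    have := z2_add_self (f p)
    linear_combination this

lemma BoxSum_telescope (p : ℕ) (L : List ℕ) (hL : L.Nodup) (H : (ℕ → ℕ) → ZMod 2) (z : ℕ → ℕ)
    (i : ℕ) (hi : i ∈ L) :
    BoxSum p L (fun x => H (stp x i) + H x) z =
      BoxSum p (L.erase i) (fun x => H (Function.update x i p) + H (Function.update x i 0)) z := by
  induction L generalizing z with
  | nil => simp at hi
  | cons j L ih =>
    rw [List.nodup_cons] at hL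
    by_cases hij : j = i
    · subst hij
      rw [List.erase_cons_head]
      simp only [BoxSum]
      have h1 : ∀ a, BoxSum p L (fun x => H (stp x j) + H x) (Function.update z j a) =
          BoxSum p L (fun x => H (Function.update x j (a + 1)) + H (Function.update x j a)) z := by
        intro a
        rw [BoxSum_update p L _ z j a hL.1]
        have h2 : (fun x : ℕ → ℕ => H (stp (Function.update x j a) j) + H (Function.update x j a)) =
            fun x => H (Function.update x j (a + 1)) + H (Function.update x j a) := by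
          funext x
          unfold stp
          rw [Function.update_self, Function.update_idem]
        rw [h2]
      simp only [h1]
      rw [← BoxSum_sum]
      congr 1
      funext x
      exact telescope p (fun a => H (Function.update x j a))
    · have hi' : i ∈ L := by
        rcases List.mem_cons.1 hi with h | h
        · exact absurd h.symm hij
        · exact h
      rw [List.erase_cons_tail (by simpa using hij)]
      simp only [BoxSum]
      exact Finset.sum_congr rfl fun a _ => ih hL.2 _ hi'

end Pool.Agent.SigmaHom
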