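import Pool.Agent.Lib.MP_1f1ec9_gt.Kuhn

set_option autoImplicit false

namespace Pool.Agent.SigmaHom

lemma stp_ne (x : ℕ → ℕ) {i j : ℕ} (h : j ≠ i) : stp x i j = x j := by
  unfold stp
  rw [Function.update_of_ne h]

lemma stp_same (x : ℕ → ℕ) (i : ℕ) : stp x i i = x i + 1 := by
  unfold stp
  rw [Function.update_self]

/-- The product vanishes on a face on which one of the labels is constant. -/
lemma GG_face (l : ℕ → (ℕ → ℕ) → ZMod 2) (i : ℕ) (c : ZMod 2) (m : ℕ) :
    ∀ (k : ℕ) (x : ℕ → ℕ) (D : Finset ℕ), i ∉ D → k ≤ i → i < k + m →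
      (∀ y : ℕ → ℕ, y i = x i → l i y = c) → GG l k m x D = 0 := by
  induction m with
  | zero => intro k x D _ h1 h2; omega
  | succ m ih =>
    intro k x D hD h1 h2 hc
    show ∑ j ∈ D, (l k (stp x j) + l k x) * GG l (k + 1) m (stp x j) (D.erase j) = 0
    refine Finset.sum_eq_zero fun j hj => ?_
    have hji : i ≠ j := fun h => hD (h ▸ hj)
    by_cases hki : k = i
    · subst hki
      rw [hc (stp x j) (stp_ne x hji), hc x rfl, z2_add_self, zero_mul]
    · rw [ih (k + 1) (stp x j) (D.erase j) (fun h => hD (Finset.mem_of_mem_erase h)) (by omega)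
        (by omega) (fun y hy => hc y (by rw [hy, stp_ne x hji])), mul_zero]

lemma BoxSum_const_one (p : ℕ) (z : ℕ → ℕ) : BoxSum p [] (fun _ => 1) z = 1 := rfl

lemma Ico_erase (j m : ℕ) :
    (Finset.Ico j (j + (m + 1))).erase j = Finset.Ico (j + 1) (j + 1 + m) := by
  ext i
  simp only [Finset.mem_erase, Finset.mem_Ico]
  omega

/-- Kuhn's parity statement. -/
lemma BoxSum_GG (p : ℕ) (l : ℕ → (ℕ → ℕ) → ZMod 2) (m : ℕ) :
    ∀ (j : ℕ), (∀ i, j ≤ i → i < j + m → ∀ y : ℕ → ℕ, y i = 0 → l i y = 0) →
      (∀ i, j ≤ i → i < j + m → ∀ y : ℕ → ℕ, y i = p → l i y = 1) → ∀ z : ℕ → ℕ,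
      BoxSum p (List.range' j m) (fun x => GG l j m x (Finset.Ico j (j + m))) z = 1 := by
  induction m with
  | zero => intro j _ _ z; rfl
  | succ m ih =>
    intro j h0 hp z
    have hcard : (Finset.Ico j (j + (m + 1))).card = m + 1 := by simp
    have h1 : (fun x => GG l j (m + 1) x (Finset.Ico j (j + (m + 1)))) = fun x =>
        ∑ i ∈ Finset.Ico j (j + (m + 1)),
          ((fun x => l j x * GG l (j + 1) m x ((Finset.Ico j (j + (m + 1))).erase i)) (stp x i) +
          (fun x => l j x * GG l (j + 1) m x ((Finset.Ico j (j + (m + 1))).erase i)) x) := by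
      funext x
      exact GG_formula l m (closed_all l m) j x _ hcard
    rw [h1, BoxSum_sum]
    have hnd : (List.range' j (m + 1)).Nodup := List.nodup_range'
    have h2 : ∀ i ∈ Finset.Ico j (j + (m + 1)),
        BoxSum p (List.range' j (m + 1)) (fun x =>
          ((fun x => l j x * GG l (j + 1) m x ((Finset.Ico j (j + (m + 1))).erase i)) (stp x i) +
          (fun x => l j x * GG l (j + 1) m x ((Finset.Ico j (j + (m + 1))).erase i)) x)) z =
        if i = j then 1 else 0 := by
      intro i hi
      rw [Finset.mem_Ico] at hi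
      have hiL : i ∈ List.range' j (m + 1) := by
        rw [List.mem_range'_1]
        omega
      refine (BoxSum_telescope p _ hnd
        (fun x => l j x * GG l (j + 1) m x ((Finset.Ico j (j + (m + 1))).erase i)) z i hiL).trans ?_
      by_cases hij : i = j
      · subst hij
        rw [if_pos rfl]
        have h3 : (List.range' i (m + 1)).erase i = List.range' (i + 1) m := by
          rw [List.range'_succ, List.erase_cons_head]
        rw [h3, Ico_erase]
        have h4 : (fun x : ℕ → ℕ => l i (Function.update x i p) *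
              GG l (i + 1) m (Function.update x i p) (Finset.Ico (i + 1) (i + 1 + m)) +
            l i (Function.update x i 0) *
              GG l (i + 1) m (Function.update x i 0) (Finset.Ico (i + 1) (i + 1 + m))) =
            fun x => (fun x => GG l (i + 1) m x (Finset.Ico (i + 1) (i + 1 + m)))
              (Function.update x i p) := by
          funext x
          rw [h0 i le_rfl (by omega) (Function.update x i 0) (Function.update_self _ _ _),
            hp i le_rfl (by omega) (Function.update x i p) (Function.update_self _ _ _)]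
          ring
        rw [h4]
        refine (BoxSum_update p (List.range' (i + 1) m)
          (fun x => GG l (i + 1) m x (Finset.Ico (i + 1) (i + 1 + m))) z i p
          (by rw [List.mem_range'_1]; omega)).symm.trans ?_
        exact ih (i + 1) (fun k hk1 hk2 => h0 k (by omega) (by omega))
          (fun k hk1 hk2 => hp k (by omega) (by omega)) _
      · rw [if_neg hij]
        have h4 : (fun x : ℕ → ℕ => l j (Function.update x i p) *
              GG l (j + 1) m (Function.update x i p) ((Finset.Ico j (j + (m + 1))).erase i) +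
            l j (Function.update x i 0) *
              GG l (j + 1) m (Function.update x i 0) ((Finset.Ico j (j + (m + 1))).erase i)) =
            fun _ => 0 := by
          funext x
          rw [GG_face l i 1 m (j + 1) (Function.update x i p) _ (Finset.notMem_erase _ _)
            (by omega) (by omega) (fun y hy => hp i (by omega) (by omega) y
              (by rw [hy, Function.update_self])),
            GG_face l i 0 m (j + 1) (Function.update x i 0) _ (Finset.notMem_erase _ _)
            (by omega) (by omega) (fun y hy => h0 i (by omega) (by omega) y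
              (by rw [hy, Function.update_self]))]
          ring
        rw [h4]
        have h5 : ∀ (L : List ℕ) (z : ℕ → ℕ), BoxSum p L (fun _ => 0) z = 0 := by
          intro L
          induction L with
          | nil => intro z; rfl
          | cons a L ih => intro z; simp only [BoxSum, ih, Finset.sum_const_zero]
        exact h5 _ _
    rw [Finset.sum_congr rfl h2, Finset.sum_ite_eq' , if_pos]
    rw [Finset.mem_Ico]
    omega

lemma GG_ne_zero (l : ℕ → (ℕ → ℕ) → ZMod 2) (m : ℕ) :
    ∀ (k : ℕ) (x : ℕ → ℕ) (D : Finset ℕ), GG l k m x D ≠ 0 → ∀ k', k ≤ k' → k' < k + m →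
      ∃ u v : ℕ → ℕ, (∀ i, x i ≤ u i ∧ u i ≤ x i + 1 ∧ (i ∉ D → u i = x i)) ∧
        (∀ i, x i ≤ v i ∧ v i ≤ x i + 1 ∧ (i ∉ D → v i = x i)) ∧ l k' u ≠ l k' v := by
  induction m with
  | zero => intro k x D _ k' h1 h2; omega
  | succ m ih =>
    intro k x D hne k' h1 h2
    have h3 : ∑ i ∈ D, (l k (stp x i) + l k x) * GG l (k + 1) m (stp x i) (D.erase i) ≠ 0 := hne
    obtain ⟨i, hi, hi2⟩ := Finset.exists_ne_zero_of_sum_ne_zero h3
    have ha : l k (stp x i) + l k x ≠ 0 := left_ne_zero_of_mul hi2
    have hb : GG l (k + 1) m (stp x i) (D.erase i) ≠ 0 := right_ne_zero_of_mul hi2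
    by_cases hk : k' = k
    · subst hk
      refine ⟨stp x i, x, ?_, fun j => ⟨le_rfl, by omega, fun _ => rfl⟩, ?_⟩
      · intro j
        by_cases hj : j = i
        · subst hj
          rw [stp_same]
          exact ⟨by omega, le_rfl, fun h => absurd hi h⟩
        · rw [stp_ne x hj]
          exact ⟨le_rfl, by omega, fun _ => rfl⟩
      · intro heq
        rw [heq, z2_add_self] at ha
        exact ha rfl
    · obtain ⟨u, v, hu, hv, huv⟩ := ih (k + 1) (stp x i) (D.erase i) hb k' (by omega) (by omega)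
      have key : ∀ w : ℕ → ℕ, (∀ j, stp x i j ≤ w j ∧ w j ≤ stp x i j + 1 ∧
          (j ∉ D.erase i → w j = stp x i j)) →
          ∀ j, x j ≤ w j ∧ w j ≤ x j + 1 ∧ (j ∉ D → w j = x j) := by
        intro w hw j
        by_cases hj : j = i
        · subst hj
          have h4 := (hw j).2.2 (Finset.notMem_erase _ _)
          rw [h4, stp_same]
          exact ⟨by omega, le_rfl, fun h => absurd hi h⟩
        · have h4 := hw j
          rw [stp_ne x hj] at h4
          exact ⟨h4.1, h4.2.1, fun h => h4.2.2 fun h' => h (Finset.mem_of_mem_erase h')⟩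
      exact ⟨u, v, key u hu, key v hv, huv⟩

lemma BoxSum_ne_zero (p : ℕ) (L : List ℕ) (hL : L.Nodup) (f : (ℕ → ℕ) → ZMod 2) (z : ℕ → ℕ)
    (h : BoxSum p L f z ≠ 0) :
    ∃ x : ℕ → ℕ, (∀ i ∈ L, x i < p) ∧ (∀ i, i ∉ L → x i = z i) ∧ f x ≠ 0 := by
  by_contra hcon
  push Not at hcon
  apply h
  have h1 : BoxSum p L f z = BoxSum p L (fun _ => 0) z :=
    BoxSum_congr p L hL f (fun _ => 0) z fun x hx1 hx2 => hcon x hx1 hx2
  rw [h1]
  have h5 : ∀ (L : List ℕ) (z : ℕ → ℕ), BoxSum p L (fun _ => 0) z = 0 := by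
    intro L
    induction L with
    | nil => intro z; rfl
    | cons a L ih => intro z; simp only [BoxSum, ih, Finset.sum_const_zero]
  exact h5 _ _

/-- The discrete Poincare-Miranda theorem. -/
theorem kuhn (n p : ℕ) (l : ℕ → (ℕ → ℕ) → ZMod 2)
    (h0 : ∀ i < n, ∀ y : ℕ → ℕ, y i = 0 → l i y = 0)
    (hp : ∀ i < n, ∀ y : ℕ → ℕ, y i = p → l i y = 1) :
    ∃ x : ℕ → ℕ, (∀ i < n, x i < p) ∧ ∀ k < n, ∃ u v : ℕ → ℕ,
      (∀ i, x i ≤ u i ∧ u i ≤ x i + 1) ∧ (∀ i, x i ≤ v i ∧ v i ≤ x i + 1) ∧ l k u ≠ l k v := by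
  have h1 := BoxSum_GG p l n 0 (fun i _ hi => h0 i (by omega)) (fun i _ hi => hp i (by omega))
    (fun _ => 0)
  have h2 : BoxSum p (List.range' 0 n) (fun x => GG l 0 n x (Finset.Ico 0 (0 + n)))
      (fun _ => 0) ≠ 0 := by
    rw [h1]
    exact one_ne_zero
  obtain ⟨x, hx1, hx2, hx3⟩ := BoxSum_ne_zero p _ List.nodup_range' _ _ h2
  refine ⟨x, fun i hi => hx1 i (by rw [List.mem_range'_1]; omega), fun k hk => ?_⟩
  obtain ⟨u, v, hu, hv, huv⟩ := GG_ne_zero l n 0 x _ hx3 k (by omega) (by omega)
  exact ⟨u, v, fun i => ⟨(hu i).1, (hu i).2.1⟩, fun i => ⟨(hv i).1, (hv i).2.1⟩, huv⟩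

end Pool.Agent.SigmaHom
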