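import Pool.Agent.Lib.MP_1f1ec9_gt.Ess

set_option autoImplicit false

open Filter Topology Set

namespace Pool.Agent.SigmaHom

/-- The Cantor set. -/
abbrev C : Type := ℕ → Bool

/-- Measurable maps to countable sets. -/
def MF {ι : Type} (p : C → ι) : Prop := ∀ i, MeasurableSet {t | p t = i}

lemma MF.meas {ι : Type} [Countable ι] {p : C → ι} (hp : MF p) {P : ι → C → Prop}
    (hP : ∀ i, MeasurableSet {t | P i t}) : MeasurableSet {t | P (p t) t} := by
  have : {t | P (p t) t} = ⋃ i, {t | p t = i} ∩ {t | P i t} := by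
    ext t
    simp
  rw [this]
  exact MeasurableSet.iUnion fun i => (hp i).inter (hP i)

lemma MF.comp {ι : Type} {p : C → ι} (hp : MF p) {σ : C → C} (hσ : Measurable σ) :
    MF (fun t => p (σ t)) := fun i => hσ (hp i)

lemma MF.map {ι κ : Type} [Countable ι] {p : C → ι} (hp : MF p) (g : ι → κ) :
    MF (fun t => g (p t)) := by
  intro k
  exact hp.meas (P := fun i _ => g i = k) fun i => MeasurableSet.const _

lemma MF.ite {ι : Type} {p p' : C → ι} (hp : MF p) (hp' : MF p') {T : Set C}
    (hT : MeasurableSet T) [DecidablePred (· ∈ T)] : MF (fun t => if t ∈ T then p t else p' t) := by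
  intro i
  have : {t | (if t ∈ T then p t else p' t) = i} =
      (T ∩ {t | p t = i}) ∪ (Tᶜ ∩ {t | p' t = i}) := by
    ext t
    by_cases h : t ∈ T <;> simp [h]
  rw [this]
  exact (hT.inter (hp i)).union (hT.compl.inter (hp' i))

lemma mchoice {ι : Type} [Countable ι] [Nonempty ι] (P : ι → C → Prop)
    (hP : ∀ i, MeasurableSet {t | P i t}) :
    ∃ L : C → ι, MF L ∧ ∀ t, (∃ i, P i t) → P (L t) t := by
  classical
  obtain ⟨e, he⟩ := exists_surjective_nat ι
  have hp : ∀ t, ∃ n, P (e n) t ∨ ¬ ∃ i, P i t := by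
    intro t
    by_cases h : ∃ i, P i t
    · obtain ⟨i, hi⟩ := h
      obtain ⟨n, rfl⟩ := he i
      exact ⟨n, Or.inl hi⟩
    · exact ⟨0, Or.inr h⟩
  have hm : ∀ n, MeasurableSet {t | P (e n) t ∨ ¬ ∃ i, P i t} := by
    intro n
    have h2 : MeasurableSet {t | ¬ ∃ i, P i t} := by
      have : {t | ¬ ∃ i, P i t} = (⋃ i, {t | P i t})ᶜ := by
        ext t
        simp
      rw [this]
      exact (MeasurableSet.iUnion fun i => hP i).compl
    exact (hP (e n)).union h2
  have hmeas := measurable_find hp hm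
  refine ⟨fun t => e (Nat.find (hp t)), ?_, ?_⟩
  · have h1 : MF (fun t => Nat.find (hp t)) := fun n => hmeas (MeasurableSet.singleton n)
    exact h1.map e
  · intro t ht
    rcases Nat.find_spec (hp t) with h | h
    · exact h
    · exact absurd ht h

/-- Measurable maps to closed subsets of the Hilbert cube. -/
structure MC (K : C → Set Q) : Prop where
  closed : ∀ t, IsClosed (K t)
  meas : ∀ O : Set Q, IsOpen O → MeasurableSet {t | K t ⊆ O}

lemma MC.const {F : Set Q} (hF : IsClosed F) : MC (fun _ => F) :=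
  ⟨fun _ => hF, fun _ _ => MeasurableSet.const _⟩

lemma MC.pw {ι : Type} [Countable ι] {p : C → ι} (hp : MF p) {K : ι → C → Set Q}
    (hK : ∀ i, MC (K i)) : MC (fun t => K (p t) t) :=
  ⟨fun t => (hK (p t)).closed t, fun O hO =>
    hp.meas (P := fun i t => K i t ⊆ O) fun i => (hK i).meas O hO⟩

lemma MC.ite {K K' : C → Set Q} (hK : MC K) (hK' : MC K') {T : Set C}
    (hT : MeasurableSet T) [DecidablePred (· ∈ T)] : MC (fun t => if t ∈ T then K t else K' t) := by
  refine ⟨fun t => ?_, fun O hO => ?_⟩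
  · split_ifs
    · exact hK.closed t
    · exact hK'.closed t
  · have : {t | (if t ∈ T then K t else K' t) ⊆ O} =
        (T ∩ {t | K t ⊆ O}) ∪ (Tᶜ ∩ {t | K' t ⊆ O}) := by
      ext t
      by_cases h : t ∈ T <;> simp [h]
    rw [this]
    exact (hT.inter (hK.meas O hO)).union (hT.compl.inter (hK'.meas O hO))

/-- Finite unions of basic open sets. -/
def fb : Set (Set Q) :=
  (fun u : Finset (TopologicalSpace.countableBasis Q) => ⋃ b ∈ u, (b : Set Q)) '' univ

lemma fb_countable : fb.Countable := by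
  have : Countable (TopologicalSpace.countableBasis Q) :=
    (TopologicalSpace.countable_countableBasis Q).to_subtype
  exact (countable_univ).image _

lemma fb_open {O : Set Q} (h : O ∈ fb) : IsOpen O := by
  obtain ⟨u, _, rfl⟩ := h
  exact isOpen_biUnion fun b _ => TopologicalSpace.isOpen_of_mem_countableBasis b.2

lemma exists_fb {F V : Set Q} (hF : IsClosed F) (hV : IsOpen V) (h : F ⊆ V) :
    ∃ O ∈ fb, F ⊆ O ∧ O ⊆ V := by
  classical
  have hb := TopologicalSpace.isBasis_countableBasis Q
  have hcov : F ⊆ ⋃ b : {b : TopologicalSpace.countableBasis Q // (b : Set Q) ⊆ V}, (b : Set Q) := by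
    intro x hx
    obtain ⟨b, hb1, hb2, hb3⟩ := hb.exists_subset_of_mem_open (h hx) hV
    exact mem_iUnion.2 ⟨⟨⟨b, hb1⟩, hb3⟩, hb2⟩
  obtain ⟨u, hu⟩ := hF.isCompact.elim_finite_subcover _
    (fun b : {b : TopologicalSpace.countableBasis Q // (b : Set Q) ⊆ V} =>
      TopologicalSpace.isOpen_of_mem_countableBasis b.1.2) hcov
  refine ⟨_, ⟨u.map (Function.Embedding.subtype _), mem_univ _, rfl⟩, ?_, ?_⟩
  · intro x hx
    obtain ⟨b, hb1, hb2⟩ := mem_iUnion₂.1 (hu hx)
    exact mem_iUnion₂.2 ⟨b.1, Finset.mem_map.2 ⟨b, hb1, rfl⟩, hb2⟩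
  · intro x hx
    obtain ⟨b, hb1, hb2⟩ := mem_iUnion₂.1 hx
    obtain ⟨a, _, rfl⟩ := Finset.mem_map.1 hb1
    exact a.2 hb2

lemma MC.inter {K F : C → Set Q} (hK : MC K) (hF : MC F) : MC (fun t => K t ∩ F t) := by
  refine ⟨fun t => (hK.closed t).inter (hF.closed t), fun O hO => ?_⟩
  have : {t | K t ∩ F t ⊆ O} =
      ⋃ O₂ ∈ fb, {t | F t ⊆ O₂} ∩ {t | K t ⊆ O ∪ (closure O₂)ᶜ} := by
    ext t
    simp only [mem_ofPred_eq, mem_iUnion, mem_inter_iff, exists_prop]
    constructor
    · intro h
      have hd : Disjoint (F t) (K t \ O) := by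
        rw [Set.disjoint_left]
        intro x hx hx2
        exact hx2.2 (h ⟨hx2.1, hx⟩)
      have hc : IsClosed (K t \ O) := (hK.closed t).inter hO.isClosed_compl
      obtain ⟨V, hV, hFV, hVd⟩ := normal_exists_closure_subset (hF.closed t)
        hc.isOpen_compl (subset_compl_iff_disjoint_right.2 hd)
      obtain ⟨O₂, hO₂, h1, h2⟩ := exists_fb (hF.closed t) hV hFV
      refine ⟨O₂, hO₂, h1, fun x hx => ?_⟩
      by_cases hxO : x ∈ O
      · exact Or.inl hxO
      · refine Or.inr fun hcl => ?_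
        exact hVd (closure_mono h2 hcl) ⟨hx, hxO⟩
    · rintro ⟨O₂, _, h1, h2⟩ x ⟨hx1, hx2⟩
      rcases h2 hx1 with h | h
      · exact h
      · exact absurd (subset_closure (h1 hx2)) h
  rw [this]
  refine MeasurableSet.biUnion fb_countable fun O₂ hO₂ => ?_
  exact (hF.meas O₂ (fb_open hO₂)).inter (hK.meas _ (hO.union isClosed_closure.isOpen_compl))

lemma MC.iInter_antitone {K : ℕ → C → Set Q} (hK : ∀ n, MC (K n))
    (hanti : ∀ t, Antitone fun n => K n t) : MC (fun t => ⋂ n, K n t) := by
  refine ⟨fun t => isClosed_iInter fun n => (hK n).closed t, fun O hO => ?_⟩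
  have : {t | ⋂ n, K n t ⊆ O} = ⋃ n, {t | K n t ⊆ O} := by
    ext t
    simp only [mem_ofPred_eq, mem_iUnion]
    constructor
    · intro h
      have hemp : ⋂ n, K n t ∩ Oᶜ = ∅ := by
        rw [Set.eq_empty_iff_forall_notMem]
        intro x hx
        rw [mem_iInter] at hx
        exact (hx 0).2 (h (mem_iInter.2 fun n => (hx n).1))
      by_contra hcon
      push Not at hcon
      have h1 : (⋂ n, K n t ∩ Oᶜ).Nonempty := by
        refine IsCompact.nonempty_iInter_of_sequence_nonempty_isCompact_isClosed _ ?_ ?_ ?_ ?_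
        · intro n
          exact inter_subset_inter_left _ (hanti t (Nat.le_succ n))
        · intro n
          obtain ⟨x, hx, hx2⟩ := Set.not_subset.1 (hcon n)
          exact ⟨x, hx, hx2⟩
        · exact (((hK 0).closed t).inter hO.isClosed_compl).isCompact
        · intro n
          exact ((hK n).closed t).inter hO.isClosed_compl
      rw [hemp] at h1
      exact Set.not_nonempty_empty h1
    · rintro ⟨n, hn⟩
      exact (iInter_subset _ n).trans hn
  rw [this]
  exact MeasurableSet.iUnion fun n => (hK n).meas O hO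

lemma MC.partInter {K : ℕ → C → Set Q} (hK : ∀ n, MC (K n)) (n : ℕ) :
    MC (fun t => ⋂ m, ⋂ (_ : m ≤ n), K m t) := by
  induction n with
  | zero =>
    have : (fun t => ⋂ m, ⋂ (_ : m ≤ 0), K m t) = K 0 := by
      ext t x
      simp
    rw [this]
    exact hK 0
  | succ n ih =>
    have : (fun t => ⋂ m, ⋂ (_ : m ≤ n + 1), K m t) =
        fun t => (⋂ m, ⋂ (_ : m ≤ n), K m t) ∩ K (n + 1) t := by
      ext t x
      simp only [mem_iInter, mem_inter_iff]
      constructor
      · intro h
        exact ⟨fun m hm => h m (by omega), h _ le_rfl⟩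
      · rintro ⟨h1, h2⟩ m hm
        rcases Nat.lt_or_ge m (n + 1) with h3 | h3
        · exact h1 m (by omega)
        · obtain rfl : m = n + 1 := by omega
          exact h2
    rw [this]
    exact ih.inter (hK _)

lemma MC.iInter {K : ℕ → C → Set Q} (hK : ∀ n, MC (K n)) : MC (fun t => ⋂ n, K n t) := by
  have : (fun t => ⋂ n, K n t) = fun t => ⋂ n, ⋂ m, ⋂ (_ : m ≤ n), K m t := by
    ext t x
    simp only [mem_iInter]
    exact ⟨fun h n m _ => h m, fun h n => h n n le_rfl⟩
  rw [this]
  refine MC.iInter_antitone (fun n => MC.partInter hK n) fun t a b hab x hx => ?_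
  simp only [mem_iInter] at hx ⊢
  exact fun m hm => hx m (hm.trans hab)

lemma MC.of_closed {G : C → Q → Prop} (hG : IsClosed {z : C × Q | G z.1 z.2}) :
    MC (fun t => {x | G t x}) := by
  refine ⟨fun t => ?_, fun O hO => ?_⟩
  · exact hG.preimage (f := fun x : Q => (t, x)) (by fun_prop)
  · have h1 : IsClosed {z : C × Q | G z.1 z.2 ∧ z.2 ∉ O} :=
      hG.inter (hO.isClosed_compl.preimage continuous_snd)
    have h2 : IsClosed (Prod.fst '' {z : C × Q | G z.1 z.2 ∧ z.2 ∉ O}) :=
      isClosedMap_fst_of_compactSpace _ h1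
    have h3 : {t | {x | G t x} ⊆ O} = (Prod.fst '' {z : C × Q | G z.1 z.2 ∧ z.2 ∉ O})ᶜ := by
      ext t
      simp only [mem_ofPred_eq, mem_compl_iff, mem_image, Prod.exists, exists_and_right,
        exists_eq_right, not_exists, not_and, not_not]
      rfl
    rw [h3]
    exact h2.measurableSet.compl

lemma closed_proj {α β : Type} [TopologicalSpace α] [TopologicalSpace β] [CompactSpace β]
    {G : α → β → Prop} (hG : IsClosed {z : α × β | G z.1 z.2}) : IsClosed {a | ∃ b, G a b} := by
  have h2 : IsClosed (Prod.fst '' {z : α × β | G z.1 z.2}) :=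
    isClosedMap_fst_of_compactSpace _ hG
  have h3 : {a | ∃ b, G a b} = Prod.fst '' {z : α × β | G z.1 z.2} := by
    ext a
    simp
  rw [h3]
  exact h2

lemma MC.meas_ess {K : C → Set Q} (hK : MC K) {p : C → Idx} (hp : MF p) :
    MeasurableSet {t | Ess (p t) (K t)} := by
  have h : {t | Ess (p t) (K t)} = (⋃ w : Tup, {t | (∀ i ∈ w.1, p t <:+ i) ∧
      K t ⊆ (zset w)ᶜ})ᶜ := by
    ext t
    simp only [mem_ofPred_eq, mem_compl_iff, mem_iUnion]
    rw [← not_iff_not, not_not, not_ess_iff (hK.closed t)]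
    refine exists_congr fun w => and_congr_right fun _ => ?_
    rw [subset_compl_iff_disjoint_right, disjoint_iff_inter_eq_empty]
  rw [h]
  refine (MeasurableSet.iUnion fun w => ?_).compl
  exact hp.meas (P := fun i t => (∀ j ∈ w.1, i <:+ j) ∧ K t ⊆ (zset w)ᶜ) fun i =>
    (MeasurableSet.const _).inter (hK.meas _ (isClosed_zset w).isOpen_compl)

lemma MC.measurableSet_graph {K : C → Set Q} (hK : MC K) :
    MeasurableSet {z : C × Q | z.2 ∈ K z.1} := by
  have h : {z : C × Q | z.2 ∈ K z.1} =
      (⋃ b ∈ TopologicalSpace.countableBasis Q, {t | K t ⊆ (closure b)ᶜ} ×ˢ b)ᶜ := by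
    ext ⟨t, x⟩
    simp only [mem_ofPred_eq, mem_compl_iff, mem_iUnion, mem_prod, exists_prop, not_exists, not_and]
    constructor
    · intro h b _ hb hxb
      exact hb h (subset_closure hxb)
    · intro h
      by_contra hx
      obtain ⟨V, hV, hxV, hVd⟩ := normal_exists_closure_subset
        (isClosed_singleton (x := x)) (hK.closed t).isOpen_compl (by simpa using hx)
      obtain ⟨b, hb1, hb2, hb3⟩ :=
        (TopologicalSpace.isBasis_countableBasis Q).exists_subset_of_mem_open
          (hxV (mem_singleton x)) hV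
      refine h b hb1 (fun y hy hyb => hVd (closure_mono hb3 hyb) hy) hb2
  rw [h]
  refine (MeasurableSet.biUnion (TopologicalSpace.countable_countableBasis Q)
    fun b hb => ?_).compl
  exact (hK.meas _ isClosed_closure.isOpen_compl).prod
    (TopologicalSpace.isOpen_of_mem_countableBasis hb).measurableSet

end Pool.Agent.SigmaHom
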