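import Pool.Agent.Lib.MP_1f1ec9_gt.Code

set_option autoImplicit false

open Filter Topology Set

namespace Pool.Agent.SigmaHom

/-- Requirement A. -/
def PA (m m' : ℕ) (S : St) (σ : C → C) : Prop :=
  ∀ t, (∀ x ∈ S.K t, ¬ ∃ q, Rel m t (t, x) = {q} ∧ Rel m' t q = {(t, x)}) ∨
    ∃ k, ∀ x ∈ S.K t, ∃ y, Rel m t (t, x) = {(σ t, y)} ∧ y ∈ Ck k t

lemma PA.mono {m m' : ℕ} {S S' : St} {σ : C → C} (h : PA m m' S σ) (hS : S'.Le S) :
    PA m m' S' σ := by
  intro t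
  rcases h t with h1 | ⟨k, h1⟩
  · exact Or.inl fun x hx => h1 x (hS t hx)
  · exact Or.inr ⟨k, fun x hx => h1 x (hS t hx)⟩

/-- `c` records the position of the coordinates of `y` relative to the numbers `ck k t`. -/
def Sgn (t c : C) (y : Q) : Prop := ∀ l,
  (c l = false → (y (ke l).1 : ℝ) ≤ ck (ke l) t) ∧ (c l = true → ck (ke l) t ≤ (y (ke l).1 : ℝ))

lemma isClosed_Sgn : IsClosed {z : (C × C) × Q | Sgn z.1.1 z.1.2 z.2} := by
  have hb : ∀ (l : ℕ) (b : Bool), IsOpen {z : (C × C) × Q | z.1.2 l = b} := by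
    intro l b
    exact (isOpen_discrete {b}).preimage
      (f := fun z : (C × C) × Q => z.1.2 l) (by fun_prop)
  have : {z : (C × C) × Q | Sgn z.1.1 z.1.2 z.2} = ⋂ l,
      (({z : (C × C) × Q | z.1.2 l = false}ᶜ ∪
        {z : (C × C) × Q | (z.2 (ke l).1 : ℝ) ≤ ck (ke l) z.1.1}) ∩
      ({z : (C × C) × Q | z.1.2 l = true}ᶜ ∪
        {z : (C × C) × Q | ck (ke l) z.1.1 ≤ (z.2 (ke l).1 : ℝ)})) := by
    ext z
    simp only [Sgn, mem_ofPred_eq, mem_iInter, mem_inter_iff, mem_union, mem_compl_iff,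
      imp_iff_not_or]
  rw [this]
  have h1 : ∀ l, Continuous fun z : (C × C) × Q => ck (ke l) z.1.1 := fun l =>
    (continuous_ck _).comp (by fun_prop)
  refine isClosed_iInter fun l => IsClosed.inter ?_ ?_
  · exact (hb l false).isClosed_compl.union (isClosed_le (by fun_prop) (h1 l))
  · exact (hb l true).isClosed_compl.union (isClosed_le (h1 l) (by fun_prop))

lemma Sgn.eq {t c : C} {y y' : Q} (h : Sgn t c y) (h' : Sgn t c y') : y = y' := by
  have key : ∀ {y y' : Q}, Sgn t c y → Sgn t c y' → ∀ i, ¬ ((y i : ℝ) < (y' i : ℝ)) := by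
    intro y y' h h' i hlt
    obtain ⟨k, hk, h1, h2⟩ := ck_dense i t hlt
    obtain ⟨l, rfl⟩ := ke_surj k
    subst hk
    cases hc : c l
    · exact absurd h2 (not_lt.2 ((h' l).1 hc))
    · exact absurd h1 (not_lt.2 ((h l).2 hc))
  funext i
  exact Subtype.ext (le_antisymm (not_lt.1 (key h' h i)) (not_lt.1 (key h h' i)))

lemma PA.dense (m m' : ℕ) (S : St) :
    ∃ S' : St, S'.Le S ∧ ∃ σ : C → C, Measurable σ ∧ PA m m' S' σ := by
  classical
  -- A1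
  set F1 : ℕ → C → Set Q := fun l t =>
    if Disjoint (closure (bs l.unpair.1)) (closure (bs l.unpair.2)) then
      {x | ∃ q ∈ Rel m t (t, x), q ∈ closure (bs l.unpair.1)} ∩
      {x | ∃ q ∈ Rel m t (t, x), q ∈ closure (bs l.unpair.2)} else ∅ with hF1def
  have hF1 : ∀ l, MC (F1 l) := by
    intro l
    by_cases hl : Disjoint (closure (bs l.unpair.1)) (closure (bs l.unpair.2))
    · simp only [hF1def, if_pos hl]
      exact (MC_exists_Rel m (G := fun _ _ q => q ∈ closure (bs l.unpair.1))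
        (isClosed_closure.preimage continuous_snd)).inter
        (MC_exists_Rel m (G := fun _ _ q => q ∈ closure (bs l.unpair.2))
        (isClosed_closure.preimage continuous_snd))
    · simp only [hF1def, if_neg hl]
      exact MC.const isClosed_empty
  obtain ⟨S1, hS1, L1, -, hL1a, hL1b⟩ := dich S F1 hF1
  -- A2
  obtain ⟨S2, hS2, L2, -, hL2a, hL2b⟩ := dich S1
    (fun _ t => {x | ∃ q ∈ Rel m t (t, x), True}) fun _ =>
      MC_exists_Rel m (G := fun _ _ _ => True) (by simp)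
  -- A3
  obtain ⟨S3, hS3, σ, hσ, hσP⟩ := tree S2 (fun t x c => ∃ q ∈ Rel m t (t, x), q.1 = c)
    (closed_exists_Rel m (G := fun _ _ (c : C) (q : Y) => q.1 = c)
      (isClosed_eq (by fun_prop) (by fun_prop)))
  -- A4
  obtain ⟨S4, hS4, L4, -, hL4a, hL4b⟩ := dich S3
    (fun l t => {x | ∃ q ∈ Rel m t (t, x), q.2 ∈ Ck (ke l) t}) fun l =>
      MC_exists_Rel m (G := fun t _ (q : Y) => q.2 ∈ Ck (ke l) t)
        ((isClosed_Ck (ke l)).preimage
          (f := fun z : (C × Q) × Y => (z.2.2, z.1.1)) (by fun_prop))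
  -- A5
  obtain ⟨S5, hS5, c, -, hcP⟩ := tree S4 (fun t x c => ∃ q ∈ Rel m t (t, x), Sgn t c q.2)
    (closed_exists_Rel m (G := fun t _ (c : C) (q : Y) => Sgn t c q.2)
      (isClosed_Sgn.preimage
        (f := fun z : ((C × Q) × C) × Y => ((z.1.1.1, z.1.2), z.2.2)) (by fun_prop)))
  -- A6
  have hcut : ∀ i : Idx, IsClosed {x : Q | (x i : ℝ) = 1 / 3} := fun i =>
    isClosed_eq (by fun_prop) continuous_const
  have hbad : MC (fun t => {x | ∃ q ∈ Rel m t (t, x), (t, x) ∈ Rel m' t q}) :=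
    MC_exists_Rel m (G := fun t x q => (t, x) ∈ Rel m' t q)
      ((isClosed_Rel m').preimage
        (f := fun z : (C × Q) × Y => ((z.1.1, z.2), (z.1.1, z.1.2))) (by fun_prop))
  have hM : MC (fun t => (S5.K t ∩ {x : Q | (x (S5.p t) : ℝ) = 1 / 3}) ∩
      {x | ∃ q ∈ Rel m t (t, x), (t, x) ∈ Rel m' t q}) :=
    (S5.hK.inter (MC.pw S5.hp (K := fun i _ => {x : Q | (x i : ℝ) = 1 / 3})
      fun i => MC.const (hcut i))).inter hbad
  set α : C → Bool := fun t => if t ∈ {t | ((S5.K t ∩ {x : Q | (x (S5.p t) : ℝ) = 1 / 3}) ∩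
      {x | ∃ q ∈ Rel m t (t, x), (t, x) ∈ Rel m' t q}) ⊆ ∅} then false else true with hα
  have hαm : MF α := MF.ite (p := fun _ => false) (p' := fun _ => true)
    (fun i => MeasurableSet.const _) (fun i => MeasurableSet.const _) (hM.meas ∅ isOpen_empty)
  obtain ⟨S6, hS6, hcutP⟩ := cutOp S5 α hαm
  -- combine
  have h21 : S2.Le S1 := hS2
  have h32 : S3.Le S2 := hS3
  refine ⟨S6, hS6.trans (hS5.trans (hS4.trans (hS3.trans (hS2.trans hS1)))), σ, hσ, fun t => ?_⟩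
  rcases Nat.eq_zero_or_pos (L1 t) with h1 | h1
  swap
  · -- two different values
    left
    intro x hx
    have hx1 : x ∈ S1.K t := hS2 t (hS3 t (hS4 t (hS5 t (hS6 t hx))))
    have h2 := hL1a t (L1 t - 1) (by omega) x hx1
    rintro ⟨q, hq, -⟩
    simp only [hF1def] at h2
    split_ifs at h2 with h3
    · obtain ⟨⟨q1, hq1, hq1'⟩, ⟨q2, hq2, hq2'⟩⟩ := h2
      rw [hq] at hq1 hq2
      rw [mem_singleton_iff] at hq1 hq2
      subst hq1 hq2
      exact Set.disjoint_left.1 h3 hq1' hq2'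
    · exact h2
  have hsub : ∀ x ∈ S1.K t, ∀ q ∈ Rel m t (t, x), ∀ q' ∈ Rel m t (t, x), q = q' := by
    intro x hx q hq q' hq'
    by_contra hne
    obtain ⟨u, hu1, hu2, v, hv1, hv2, huv⟩ := exists_open_nhds_disjoint_closure hne
    obtain ⟨i, hi1, hi2⟩ := exists_bs_mem hu2 hu1
    obtain ⟨j, hj1, hj2⟩ := exists_bs_mem hv2 hv1
    have hd : Disjoint (closure (bs i)) (closure (bs j)) :=
      huv.mono (closure_mono hi2) (closure_mono hj2)
    refine hL1b t h1 (Nat.pair i j) x hx ?_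
    simp only [hF1def, Nat.unpair_pair, if_pos hd]
    exact ⟨⟨q, hq, subset_closure hi1⟩, ⟨q', hq', subset_closure hj1⟩⟩
  rcases Nat.eq_zero_or_pos (L2 t) with h2 | h2
  · left
    intro x hx
    have hx2 : x ∈ S2.K t := hS3 t (hS4 t (hS5 t (hS6 t hx)))
    rintro ⟨q, hq, -⟩
    exact hL2b t h2 0 x hx2 ⟨q, hq ▸ mem_singleton q, trivial⟩
  have hsing : ∀ x ∈ S2.K t, ∃ q, Rel m t (t, x) = {q} := by
    intro x hx
    obtain ⟨q, hq, -⟩ := hL2a t (L2 t - 1) (by omega) x hx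
    refine ⟨q, Set.eq_singleton_iff_unique_mem.2 ⟨hq, fun q' hq' => ?_⟩⟩
    exact hsub x (hS2 t hx) q' hq' q hq
  have hgood3 : ∀ x ∈ S3.K t, ∃ y, Rel m t (t, x) = {(σ t, y)} := by
    intro x hx
    obtain ⟨q, hq, hq1⟩ := hσP t (fun x hx => by
      obtain ⟨q, hq⟩ := hsing x hx
      refine ⟨q.1, ⟨q, hq ▸ mem_singleton q, rfl⟩, ?_⟩
      rintro c ⟨q', hq', rfl⟩
      rw [hq, mem_singleton_iff] at hq'
      rw [hq']) x hx
    obtain ⟨q', hq'⟩ := hsing x (hS3 t hx)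
    rw [hq', mem_singleton_iff] at hq
    subst hq
    refine ⟨q.2, ?_⟩
    rw [hq', ← hq1]
  rcases Nat.eq_zero_or_pos (L4 t) with h4 | h4
  swap
  · right
    refine ⟨ke (L4 t - 1), fun x hx => ?_⟩
    have hx4 : x ∈ S4.K t := hS5 t (hS6 t hx)
    obtain ⟨q, hq, hq2⟩ := hL4a t (L4 t - 1) (by omega) x hx4
    obtain ⟨y, hy⟩ := hgood3 x (hS4 t hx4)
    refine ⟨y, hy, ?_⟩
    rw [hy, mem_singleton_iff] at hq
    rw [hq] at hq2
    exact hq2
  -- the uncoded case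
  left
  have hconst : ∀ x ∈ S5.K t, ∃ q ∈ Rel m t (t, x), Sgn t (c t) q.2 := by
    refine hcP t fun x hx => ?_
    obtain ⟨y, hy⟩ := hgood3 x (hS4 t hx)
    have hne : ∀ l, y ∉ Ck (ke l) t := by
      intro l hyl
      exact hL4b t h4 l x hx ⟨(σ t, y), hy ▸ mem_singleton _, hyl⟩
    have hne' : ∀ l, (y (ke l).1 : ℝ) ≠ ck (ke l) t := hne
    refine ⟨fun l => decide (ck (ke l) t ≤ (y (ke l).1 : ℝ)), ⟨(σ t, y), hy ▸ mem_singleton _,
      fun l => ⟨fun h => ?_, fun h => ?_⟩⟩, ?_⟩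
    · simp only [decide_eq_false_iff_not, not_le] at h
      exact h.le
    · simpa using h
    · rintro c' ⟨q', hq', hs⟩
      rw [hy, mem_singleton_iff] at hq'
      subst hq'
      funext l
      cases hc : c' l
      · have h5 : (y (ke l).1 : ℝ) ≤ ck (ke l) t := (hs l).1 hc
        symm
        simp only [decide_eq_false_iff_not, not_le]
        exact lt_of_le_of_ne h5 (hne' l)
      · have h5 : ck (ke l) t ≤ (y (ke l).1 : ℝ) := (hs l).2 hc
        symm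
        simpa using h5
  have hconst2 : ∀ x ∈ S5.K t, ∀ x' ∈ S5.K t, ∀ q q', Rel m t (t, x) = {q} →
      Rel m t (t, x') = {q'} → q = q' := by
    intro x hx x' hx' q q' hq hq'
    obtain ⟨y, hy⟩ := hgood3 x (hS4 t (hS5 t hx))
    obtain ⟨y', hy'⟩ := hgood3 x' (hS4 t (hS5 t hx'))
    obtain ⟨r, hr, hr2⟩ := hconst x hx
    obtain ⟨r', hr', hr2'⟩ := hconst x' hx'
    have e1 : (σ t, y) = q := by
      have : (σ t, y) ∈ Rel m t (t, x) := by rw [hy]; exact mem_singleton _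
      rwa [hq, mem_singleton_iff] at this
    have e2 : (σ t, y') = q' := by
      have : (σ t, y') ∈ Rel m t (t, x') := by rw [hy']; exact mem_singleton _
      rwa [hq', mem_singleton_iff] at this
    rw [hy, mem_singleton_iff] at hr
    rw [hy', mem_singleton_iff] at hr'
    subst hr hr'
    have e3 : y = y' := hr2.eq hr2'
    rw [← e1, ← e2, e3]
  intro x hx
  have hx5 : x ∈ S5.K t := hS6 t hx
  have hxc := hcutP t x hx
  rintro ⟨q, hq, hq2⟩
  by_cases ht : t ∈ {t | ((S5.K t ∩ {x : Q | (x (S5.p t) : ℝ) = 1 / 3}) ∩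
      {x | ∃ q ∈ Rel m t (t, x), (t, x) ∈ Rel m' t q}) ⊆ ∅}
  · have hαt : α t = false := by simp only [hα, if_pos ht]
    rw [hαt] at hxc
    simp only [Bool.false_eq_true, if_false] at hxc
    have : x ∈ ((S5.K t ∩ {x : Q | (x (S5.p t) : ℝ) = 1 / 3}) ∩
      {x | ∃ q ∈ Rel m t (t, x), (t, x) ∈ Rel m' t q}) :=
      ⟨⟨hx5, hxc⟩, q, hq ▸ mem_singleton q, hq2 ▸ mem_singleton _⟩
    exact ht this
  · have hαt : α t = true := by simp only [hα, if_neg ht]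
    rw [hαt] at hxc
    simp only [if_true] at hxc
    have hne : (((S5.K t ∩ {x : Q | (x (S5.p t) : ℝ) = 1 / 3}) ∩
      {x | ∃ q ∈ Rel m t (t, x), (t, x) ∈ Rel m' t q})).Nonempty := by
      rw [Set.nonempty_iff_ne_empty]
      intro h
      exact ht (subset_empty_iff.2 h)
    obtain ⟨x', ⟨hx'5, hx'c⟩, q', hq', hq'2⟩ := hne
    obtain ⟨y', hy'⟩ := hgood3 x' (hS4 t (hS5 t hx'5))
    have hqq : q' = q := by
      rw [hy', mem_singleton_iff] at hq'
      exact hconst2 x' hx'5 x hx5 q' q (hq' ▸ hy') hq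
    rw [hqq, hq2, mem_singleton_iff] at hq'2
    have hxx : x' = x := congrArg Prod.snd hq'2
    rw [hxx] at hx'c
    have h6 : (x (S5.p t) : ℝ) = 1 / 3 := hx'c
    rw [h6] at hxc
    norm_num at hxc

/-- Requirement B. -/
def PB (k : Kx) (S : St) (γ : C → C) : Prop :=
  ∀ s, (∀ y ∈ S.K s, ∀ t, y ∉ Ck k t) ∨ ∀ y ∈ S.K s, y ∈ Ck k (γ s)

lemma PB.mono {k : Kx} {S S' : St} {γ : C → C} (h : PB k S γ) (hS : S'.Le S) : PB k S' γ := by
  intro t
  rcases h t with h1 | h1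
  · exact Or.inl fun x hx => h1 x (hS t hx)
  · exact Or.inr fun x hx => h1 x (hS t hx)

lemma PB.dense (k : Kx) (S : St) :
    ∃ S' : St, S'.Le S ∧ ∃ γ : C → C, Measurable γ ∧ PB k S' γ := by
  obtain ⟨S1, hS1, L1, -, hL1a, hL1b⟩ := dich S (fun _ _ => {y | ∃ t, y ∈ Ck k t}) fun _ =>
    MC.const (closed_proj (G := fun (y : Q) t => y ∈ Ck k t) (isClosed_Ck k))
  obtain ⟨S2, hS2, γ, hγ, hγP⟩ := tree S1 (fun _ y t => y ∈ Ck k t)
    ((isClosed_Ck k).preimage (f := fun z : (C × Q) × C => (z.1.2, z.2)) (by fun_prop))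
  refine ⟨S2, hS2.trans hS1, γ, hγ, fun s => ?_⟩
  rcases Nat.eq_zero_or_pos (L1 s) with h1 | h1
  · left
    intro y hy t hyt
    exact hL1b s h1 0 y (hS2 s hy) ⟨t, hyt⟩
  · right
    refine hγP s fun y hy => ?_
    obtain ⟨t, ht⟩ := hL1a s (L1 s - 1) (by omega) y hy
    exact ⟨t, ht, fun t' ht' => Ck_unique ht' ht⟩

/-- Requirement C. -/
def PC (m m' : ℕ) (k : Kx) (r : ℕ × Bool) (S : St) : Prop :=
  ∀ t, t r.1 = r.2 → ∀ s, s r.1 ≠ r.2 → ∀ x ∈ S.K t, ∀ y ∈ S.K s, y ∈ Ck k t →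
    Rel m t (t, x) = {(s, y)} → Rel m' t (s, y) = {(t, x)} → False

lemma PC.mono {m m' : ℕ} {k : Kx} {r : ℕ × Bool} {S S' : St} (h : PC m m' k r S)
    (hS : S'.Le S) : PC m m' k r S' :=
  fun t ht s hs x hx y hy => h t ht s hs x (hS t hx) y (hS s hy)

lemma exists_nat_floor {v : ℝ} (hv : 0 ≤ v) (n : ℕ) :
    ∃ c : ℕ, (c : ℝ) / ((n : ℝ) + 1) ≤ v ∧ v ≤ ((c : ℝ) + 1) / ((n : ℝ) + 1) := by
  have hn : (0 : ℝ) < (n : ℝ) + 1 := by positivity
  refine ⟨⌊v * ((n : ℝ) + 1)⌋₊, ?_, ?_⟩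
  · rw [div_le_iff₀ hn]
    exact Nat.floor_le (by positivity)
  · rw [le_div_iff₀ hn]
    exact (Nat.lt_floor_add_one _).le

lemma PC.dense (m m' : ℕ) (k : Kx) (r : ℕ × Bool) (S : St) :
    ∃ S' : St, S'.Le S ∧ PC m m' k r S' := by
  classical
  obtain ⟨S1, hS1, σ, hσ, hA⟩ := PA.dense m m' S
  obtain ⟨S2, hS2, γ, hγ, hB⟩ := PB.dense k S1
  have hF : ∀ c : ℕ, MC (fun t => {x | ∃ q ∈ Rel m t (t, x),
      (c : ℝ) / ((3 : ℕ) + 1) ≤ (q.2 (S2.p (σ t)) : ℝ) ∧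
      (q.2 (S2.p (σ t)) : ℝ) ≤ ((c : ℝ) + 1) / ((3 : ℕ) + 1)}) := by
    intro c
    refine MC.pw (S2.hp.comp hσ) (K := fun i t => {x | ∃ q ∈ Rel m t (t, x),
      (c : ℝ) / ((3 : ℕ) + 1) ≤ (q.2 i : ℝ) ∧
      (q.2 i : ℝ) ≤ ((c : ℝ) + 1) / ((3 : ℕ) + 1)}) fun i => ?_
    refine MC_exists_Rel m (G := fun _ _ (q : Y) => (c : ℝ) / ((3 : ℕ) + 1) ≤ (q.2 i : ℝ) ∧
      (q.2 i : ℝ) ≤ ((c : ℝ) + 1) / ((3 : ℕ) + 1)) ?_
    have hcont : Continuous fun z : (C × Q) × Y => (z.2.2 i : ℝ) := by fun_prop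
    exact (isClosed_le continuous_const hcont).inter (isClosed_le hcont continuous_const)
  obtain ⟨S3, hS3, L, hL, hLa, hLb⟩ := dich S2 _ hF
  obtain ⟨S4, hS4, hcut⟩ := cutOp S2 (fun s => decide (L (γ s) = 2))
    ((hL.comp hγ).map fun n => decide (n = 2))
  have hBr : MeasurableSet {t : C | t r.1 = r.2} := by
    have h := measurable_pi_apply (X := fun _ : ℕ => Bool) r.1
    exact h (MeasurableSet.singleton r.2)
  obtain ⟨S5, hS5a, hS5b⟩ := pwOp S3 S4 {t | t r.1 = r.2} hBr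
  refine ⟨S5, fun t => ?_, ?_⟩
  · by_cases ht : t ∈ {t : C | t r.1 = r.2}
    · rw [(hS5a t ht).1]
      exact (hS3 t).trans ((hS2 t).trans (hS1 t))
    · rw [(hS5b t ht).1]
      exact (hS4 t).trans ((hS2 t).trans (hS1 t))
  intro t ht s hs x hx y hy hyk hR hR'
  rw [(hS5a t ht).1] at hx
  rw [(hS5b s hs).1] at hy
  -- `s = σ t`
  have hst : σ t = s := by
    rcases hA t with h1 | ⟨k', h1⟩
    · exact absurd ⟨(s, y), hR, hR'⟩ (h1 x (hS2 t (hS3 t hx)))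
    · obtain ⟨y', hy', -⟩ := h1 x (hS2 t (hS3 t hx))
      rw [hR] at hy'
      exact (congrArg Prod.fst (singleton_injective hy')).symm
  -- `t = γ s`
  have hts : γ s = t := by
    rcases hB s with h1 | h1
    · exact absurd hyk (h1 y (hS4 s hy) t)
    · exact Ck_unique (h1 y (hS4 s hy)) hyk
  have hycut := hcut s y hy
  simp only [hts, decide_eq_true_eq] at hycut
  rcases Nat.eq_zero_or_pos (L t) with h0 | h0
  · obtain ⟨c, hc1, hc2⟩ := exists_nat_floor (y (S2.p s)).2.1 3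
    refine hLb t h0 c x hx ⟨(s, y), hR ▸ mem_singleton _, ?_, ?_⟩
    · rw [hst]; exact hc1
    · rw [hst]; exact hc2
  · obtain ⟨q, hq, hq1, hq2⟩ := hLa t (L t - 1) (by omega) x hx
    rw [hR, mem_singleton_iff] at hq
    subst hq
    rw [hst] at hq1 hq2
    have hq1' : (((L t - 1 : ℕ) : ℝ)) / ((3 : ℕ) + 1) ≤ (y (S2.p s) : ℝ) := hq1
    have hq2' : (y (S2.p s) : ℝ) ≤ (((L t - 1 : ℕ) : ℝ) + 1) / ((3 : ℕ) + 1) := hq2
    rw [hycut] at hq1' hq2'
    by_cases h2 : L t = 2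
    · rw [if_pos h2, h2] at hq2'
      norm_num at hq2'
    · rw [if_neg h2] at hq1' hq2'
      rcases Nat.lt_or_ge (L t) 2 with h3 | h3
      · have h4 : L t = 1 := by omega
        rw [h4] at hq2'
        norm_num at hq2'
      · have h4 : (2 : ℝ) ≤ ((L t - 1 : ℕ) : ℝ) := by
          exact_mod_cast (by omega : 2 ≤ L t - 1)
        have h5 : (2 : ℝ) / ((3 : ℕ) + 1) ≤ ((L t - 1 : ℕ) : ℝ) / ((3 : ℕ) + 1) :=
          div_le_div_of_nonneg_right h4 (by positivity)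
        have h6 := h5.trans hq1'
        norm_num at h6

/-- Requirement D. -/
def PD (i : Idx) (n : ℕ) (S : St) : Prop :=
  ∀ t, ∀ x ∈ S.K t, ∀ y ∈ S.K t, |(x i : ℝ) - y i| ≤ 1 / ((n : ℝ) + 1)

lemma PD.mono {i : Idx} {n : ℕ} {S S' : St} (h : PD i n S) (hS : S'.Le S) : PD i n S' :=
  fun t x hx y hy => h t x (hS t hx) y (hS t hy)

lemma PD.dense (i : Idx) (n : ℕ) (S : St) : ∃ S' : St, S'.Le S ∧ PD i n S' := by
  have hcont : Continuous fun x : Q => (x i : ℝ) := by fun_prop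
  obtain ⟨S1, hS1, L, -, hLa, hLb⟩ := dich S
    (fun c _ => {x | (c : ℝ) / ((n : ℝ) + 1) ≤ (x i : ℝ) ∧
      (x i : ℝ) ≤ ((c : ℝ) + 1) / ((n : ℝ) + 1)}) fun c =>
    MC.const ((isClosed_le continuous_const hcont).inter (isClosed_le hcont continuous_const))
  refine ⟨S1, hS1, fun t x hx y hy => ?_⟩
  rcases Nat.eq_zero_or_pos (L t) with h0 | h0
  · obtain ⟨c, hc1, hc2⟩ := exists_nat_floor (x i).2.1 n
    exact absurd ⟨hc1, hc2⟩ (hLb t h0 c x hx)
  · obtain ⟨h1, h2⟩ := hLa t (L t - 1) (by omega) x hx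
    obtain ⟨h3, h4⟩ := hLa t (L t - 1) (by omega) y hy
    rw [add_div] at h2 h4
    rw [abs_le]
    constructor <;> linarith

end Pool.Agent.SigmaHom
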