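import Pool.Agent.Lib.MP_1f1ec9_gt.Meas

set_option autoImplicit false

open Filter Topology Set

namespace Pool.Agent.SigmaHom

lemma MF.map₂ {ι κ μ : Type} [Countable ι] [Countable κ] {p : C → ι} {q : C → κ}
    (hp : MF p) (hq : MF q) (g : ι → κ → μ) : MF (fun t => g (p t) (q t)) := by
  intro k
  refine hp.meas (P := fun i t => g i (q t) = k) fun i => ?_
  exact hq.meas (P := fun j _ => g i j = k) fun j => MeasurableSet.const _

/-- The states of the construction. -/
structure St where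
  p : C → Idx
  K : C → Set Q
  hp : MF p
  hK : MC K
  hess : ∀ t, Ess (p t) (K t)

/-- The order of the states. -/
def St.Le (S' S : St) : Prop := ∀ t, S'.K t ⊆ S.K t

lemma St.Le.refl (S : St) : S.Le S := fun _ => Subset.rfl

lemma St.Le.trans {S S' S'' : St} (h : S''.Le S') (h' : S'.Le S) : S''.Le S :=
  fun t => (h t).trans (h' t)

lemma dich (S : St) (F : ℕ → C → Set Q) (hF : ∀ l, MC (F l)) :
    ∃ S' : St, S'.Le S ∧ ∃ L : C → ℕ, MF L ∧
      (∀ t l, L t = l + 1 → ∀ x ∈ S'.K t, x ∈ F l t) ∧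
      (∀ t, L t = 0 → ∀ l, ∀ x ∈ S'.K t, x ∉ F l t) := by
  classical
  have hPm : ∀ l : ℕ, MeasurableSet {t | Ess ((l + 1) :: S.p t) (S.K t ∩ F l t)} := fun l =>
    (S.hK.inter (hF l)).meas_ess (S.hp.map (fun i => (l + 1) :: i))
  obtain ⟨l0, hl0, hl0P⟩ := mchoice (fun l t => Ess ((l + 1) :: S.p t) (S.K t ∩ F l t)) hPm
  set T : Set C := ⋃ l : ℕ, {t | Ess ((l + 1) :: S.p t) (S.K t ∩ F l t)} with hTdef
  have hT : MeasurableSet T := MeasurableSet.iUnion hPm
  have hW : ∀ l : ℕ, ∃ W : C → Tup, MF W ∧ ∀ t,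
      (∃ w : Tup, (∀ i ∈ w.1, ((l + 1) :: S.p t) <:+ i) ∧ S.K t ∩ F l t ⊆ (zset w)ᶜ) →
        ((∀ i ∈ (W t).1, ((l + 1) :: S.p t) <:+ i) ∧ S.K t ∩ F l t ⊆ (zset (W t))ᶜ) := by
    intro l
    refine mchoice (fun (w : Tup) t => (∀ i ∈ w.1, ((l + 1) :: S.p t) <:+ i) ∧
      S.K t ∩ F l t ⊆ (zset w)ᶜ) fun w => ?_
    exact S.hp.meas (P := fun i t => (∀ j ∈ w.1, ((l + 1) :: i) <:+ j) ∧
      S.K t ∩ F l t ⊆ (zset w)ᶜ) fun i =>
      (MeasurableSet.const _).inter
        ((S.hK.inter (hF l)).meas _ (isClosed_zset w).isOpen_compl)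
  choose W hWm hWP using hW
  have hWP' : ∀ t, t ∉ T → ∀ l, (∀ i ∈ (W l t).1, ((l + 1) :: S.p t) <:+ i) ∧
      S.K t ∩ F l t ⊆ (zset (W l t))ᶜ := by
    intro t ht l
    refine hWP l t ?_
    have h1 : ¬ Ess ((l + 1) :: S.p t) (S.K t ∩ F l t) := fun h =>
      ht (mem_iUnion.2 ⟨l, h⟩)
    obtain ⟨w, hw1, hw2⟩ := (not_ess_iff ((S.hK.inter (hF l)).closed t)).1 h1
    refine ⟨w, hw1, ?_⟩
    rw [subset_compl_iff_disjoint_right, disjoint_iff_inter_eq_empty]
    exact hw2
  have hK1 : MC (fun t => S.K t ∩ F (l0 t) t) :=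
    MC.pw hl0 (K := fun l t => S.K t ∩ F l t) fun l => S.hK.inter (hF l)
  have hK0 : MC (fun t => S.K t ∩ ⋂ l, zset (W l t)) :=
    S.hK.inter (MC.iInter fun l => MC.pw (hWm l) (K := fun w _ => zset w) fun w =>
      MC.const (isClosed_zset w))
  refine ⟨⟨fun t => if t ∈ T then (l0 t + 1) :: S.p t else 0 :: S.p t,
    fun t => if t ∈ T then S.K t ∩ F (l0 t) t else S.K t ∩ ⋂ l, zset (W l t),
    (hl0.map₂ S.hp fun l i => (l + 1) :: i).ite (S.hp.map fun i => 0 :: i) hT,
    hK1.ite hK0 hT, fun t => ?_⟩, fun t => ?_, fun t => if t ∈ T then l0 t + 1 else 0,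
    (hl0.map fun l => l + 1).ite (fun i => MeasurableSet.const _) hT, ?_, ?_⟩
  · show Ess (if t ∈ T then (l0 t + 1) :: S.p t else 0 :: S.p t)
      (if t ∈ T then S.K t ∩ F (l0 t) t else S.K t ∩ ⋂ l, zset (W l t))
    split_ifs with ht
    · exact hl0P t (mem_iUnion.1 ht)
    · exact (S.hess t).avoid (fun l => W l t) fun l => (hWP' t ht l).1
  · show (if t ∈ T then S.K t ∩ F (l0 t) t else S.K t ∩ ⋂ l, zset (W l t)) ⊆ S.K t
    split_ifs with ht
    · exact inter_subset_left
    · exact inter_subset_left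
  · intro t l hL x hx
    have ht : t ∈ T := by
      by_contra hcon
      simp [hcon] at hL
    have hx' : x ∈ if t ∈ T then S.K t ∩ F (l0 t) t else S.K t ∩ ⋂ l, zset (W l t) := hx
    simp only [if_pos ht] at hL hx'
    have : l0 t = l := by omega
    rw [← this]
    exact hx'.2
  · intro t hL l x hx hxF
    have ht : t ∉ T := by
      intro hcon
      simp [hcon] at hL
    have hx' : x ∈ if t ∈ T then S.K t ∩ F (l0 t) t else S.K t ∩ ⋂ l, zset (W l t) := hx
    simp only [if_neg ht] at hx'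
    exact (hWP' t ht l).2 ⟨hx'.1, hxF⟩ (mem_iInter.1 hx'.2 l)

/-- One step of the tree argument. -/
noncomputable def treeStep (p : C → Idx) (F : Bool → C → Set Q) (K : C → Set Q) : C → Set Q :=
  open Classical in fun t =>
    if Ess (p t) (K t ∩ F false t) then K t ∩ F false t
    else if Ess (p t) (K t ∩ F true t) then K t ∩ F true t else K t

/-- The iteration of the tree argument. -/
noncomputable def treeK (p : C → Idx) (F : ℕ → Bool → C → Set Q) (K : C → Set Q) :
    ℕ → C → Set Q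
  | 0 => K
  | n + 1 => treeStep p (F n) (treeK p F K n)

lemma treeStep_sub (p : C → Idx) (F : Bool → C → Set Q) (K : C → Set Q) (t : C) :
    treeStep p F K t ⊆ K t := by
  classical
  unfold treeStep
  split_ifs
  · exact inter_subset_left
  · exact inter_subset_left
  · exact Subset.rfl

lemma treeStep_ess {p : C → Idx} {F : Bool → C → Set Q} {K : C → Set Q} {t : C}
    (h : Ess (p t) (K t)) : Ess (p t) (treeStep p F K t) := by
  classical
  unfold treeStep
  split_ifs with h1 h2
  · exact h1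
  · exact h2
  · exact h

lemma treeStep_MC {p : C → Idx} {F : Bool → C → Set Q} {K : C → Set Q} (hp : MF p)
    (hF : ∀ b, MC (F b)) (hK : MC K) : MC (treeStep p F K) := by
  classical
  have h0 := hK.inter (hF false)
  have h1 := hK.inter (hF true)
  exact h0.ite (T := {t | Ess (p t) (K t ∩ F false t)})
    (h1.ite (T := {t | Ess (p t) (K t ∩ F true t)}) hK (h1.meas_ess hp)) (h0.meas_ess hp)

lemma tree (S : St) (G : C → Q → C → Prop)
    (hG : IsClosed {z : (C × Q) × C | G z.1.1 z.1.2 z.2}) :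
    ∃ S' : St, S'.Le S ∧ ∃ σ : C → C, Measurable σ ∧
      ∀ t, (∀ x ∈ S.K t, ∃! c, G t x c) → ∀ x ∈ S'.K t, G t x (σ t) := by
  classical
  set F : ℕ → Bool → C → Set Q := fun n b t => {x | ∃ c, G t x c ∧ c n = b} with hFdef
  have hF : ∀ n b, MC (F n b) := by
    intro n b
    refine MC.of_closed (G := fun t x => ∃ c, G t x c ∧ c n = b) ?_
    refine closed_proj (G := fun (z : C × Q) c => G z.1 z.2 c ∧ c n = b) ?_
    exact hG.inter (isClosed_eq (by fun_prop) continuous_const)
  have hKn : ∀ n, MC (treeK S.p F S.K n) := by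
    intro n
    induction n with
    | zero => exact S.hK
    | succ n ih => exact treeStep_MC S.hp (hF n) ih
  have hanti : ∀ t, Antitone fun n => treeK S.p F S.K n t := fun t =>
    antitone_nat_of_succ_le fun n => treeStep_sub _ _ _ t
  have hess : ∀ n t, Ess (S.p t) (treeK S.p F S.K n t) := by
    intro n t
    induction n with
    | zero => exact S.hess t
    | succ n ih => exact treeStep_ess ih
  have hσ : Measurable fun t : C => fun n : ℕ =>
      if t ∈ {t | Ess (S.p t) (treeK S.p F S.K n t ∩ F n false t)} then false else true := by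
    refine measurable_pi_lambda _ fun n => ?_
    exact Measurable.ite (((hKn n).inter (hF n false)).meas_ess S.hp) measurable_const
      measurable_const
  refine ⟨⟨S.p, fun t => ⋂ n, treeK S.p F S.K n t, S.hp, MC.iInter hKn,
    fun t => ess_iInter (fun n => (hKn n).closed t) (hanti t) fun n => hess n t⟩,
    fun t => iInter_subset _ 0, _, hσ, ?_⟩
  intro t ht x hx
  have hx' : ∀ n, x ∈ treeK S.p F S.K n t := mem_iInter.1 hx
  obtain ⟨c, hc, huniq⟩ := ht x (hx' 0)
  have key : ∀ n, c n = if t ∈ {t | Ess (S.p t) (treeK S.p F S.K n t ∩ F n false t)}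
      then false else true := by
    intro n
    have h1 : x ∈ treeStep S.p (F n) (treeK S.p F S.K n) t := hx' (n + 1)
    unfold treeStep at h1
    have hu : ∀ b, x ∈ F n b t → c n = b := by
      rintro b ⟨c', hc', hb⟩
      rw [← hb, huniq c' hc']
    by_cases h2 : Ess (S.p t) (treeK S.p F S.K n t ∩ F n false t)
    · have h2' : t ∈ {t | Ess (S.p t) (treeK S.p F S.K n t ∩ F n false t)} := h2
      rw [if_pos h2'] 
      rw [if_pos h2] at h1
      exact hu _ h1.2
    · have h2' : t ∉ {t | Ess (S.p t) (treeK S.p F S.K n t ∩ F n false t)} := h2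
      rw [if_neg h2'] 
      rw [if_neg h2] at h1
      have h3 : Ess (S.p t) (treeK S.p F S.K n t ∩ F n true t) := by
        have hsub : ∀ y ∈ treeK S.p F S.K n t, y ∈ S.K t := fun y hy =>
          hanti t (Nat.zero_le n) hy
        have hun : treeK S.p F S.K n t =
            (treeK S.p F S.K n t ∩ F n false t) ∪ (treeK S.p F S.K n t ∩ F n true t) := by
          rw [← inter_union_distrib_left]
          refine (inter_eq_left.2 fun y hy => ?_).symm
          obtain ⟨c, hc, _⟩ := ht y (hsub y hy)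
          cases hb : c n
          · exact Or.inl ⟨c, hc, hb⟩
          · exact Or.inr ⟨c, hc, hb⟩
        have hdis : Disjoint (treeK S.p F S.K n t ∩ F n false t)
            (treeK S.p F S.K n t ∩ F n true t) := by
          rw [Set.disjoint_left]
          rintro y ⟨hy, c1, hc1, hb1⟩ ⟨_, c2, hc2, hb2⟩
          obtain ⟨c, hc, huniq⟩ := ht y (hsub y hy)
          rw [huniq c1 hc1] at hb1
          rw [huniq c2 hc2, hb1] at hb2
          exact absurd hb2 (by simp)
        have h4 := hess n t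
        rw [hun] at h4
        exact (Ess.split (((hKn n).inter (hF n false)).closed t)
          (((hKn n).inter (hF n true)).closed t) hdis h4).resolve_left h2
      rw [if_pos h3] at h1
      exact hu _ h1.2
  have : c = fun n : ℕ =>
      if t ∈ {t | Ess (S.p t) (treeK S.p F S.K n t ∩ F n false t)} then false else true :=
    funext key
  rw [← this]
  exact hc

lemma cutOp (S : St) (α : C → Bool) (hα : MF α) :
    ∃ S' : St, S'.Le S ∧ ∀ t, ∀ x ∈ S'.K t,
      (x (S.p t) : ℝ) = if α t then 2 / 3 else 1 / 3 := by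
  have hc : ∀ (i : Idx) (c : ℝ), IsClosed {x : Q | (x i : ℝ) = c} := fun i c =>
    isClosed_eq (by fun_prop) continuous_const
  have hq : MF (fun t => (S.p t, α t)) := S.hp.map₂ hα fun i b => (i, b)
  have hM : MC (fun t => {x : Q | (x (S.p t) : ℝ) = if α t then 2 / 3 else 1 / 3}) :=
    MC.pw hq (K := fun z _ => {x : Q | (x z.1 : ℝ) = if z.2 then 2 / 3 else 1 / 3}) fun z =>
      MC.const (hc _ _)
  refine ⟨⟨fun t => 0 :: S.p t,
    fun t => S.K t ∩ {x : Q | (x (S.p t) : ℝ) = if α t then 2 / 3 else 1 / 3},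
    S.hp.map fun i => 0 :: i, S.hK.inter hM, fun t => ?_⟩, fun t => inter_subset_left,
    fun t x hx => hx.2⟩
  refine (S.hess t).cut ?_ ?_
  · split_ifs <;> norm_num
  · split_ifs <;> norm_num

lemma pwOp (S1 S2 : St) (T : Set C) (hT : MeasurableSet T) :
    ∃ S' : St, (∀ t ∈ T, S'.K t = S1.K t ∧ S'.p t = S1.p t) ∧
      ∀ t ∉ T, S'.K t = S2.K t ∧ S'.p t = S2.p t := by
  classical
  refine ⟨⟨fun t => if t ∈ T then S1.p t else S2.p t,
    fun t => if t ∈ T then S1.K t else S2.K t, S1.hp.ite S2.hp hT, S1.hK.ite S2.hK hT,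
    fun t => ?_⟩, fun t ht => ⟨if_pos ht, if_pos ht⟩, fun t ht => ⟨if_neg ht, if_neg ht⟩⟩
  show Ess (if t ∈ T then S1.p t else S2.p t) (if t ∈ T then S1.K t else S2.K t)
  split_ifs
  · exact S1.hess t
  · exact S2.hess t

/-- The initial state. -/
def St.init : St := ⟨fun _ => [], fun _ => univ, fun _ => MeasurableSet.const _,
  MC.const isClosed_univ, fun _ => ess_univ⟩

end Pool.Agent.SigmaHom
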